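import Pool.Agent.Helper10.TW.Defs

/-! Infinitely many classes from valuations; transport of `PosRank` along scalings. -/

namespace MP241ea1

open Polynomial

/-- A criterion for infinitely many classes. -/
theorem infinite_classes_of_primes {m : ℕ} {P : ℚ → Prop}
    (h : ∀ N : ℕ, ∃ q : ℕ, N ≤ q ∧ ∃ hq : q.Prime, ∃ d : ℚ, d ≠ 0 ∧ P d ∧
      ¬ ((2 * m : ℤ) ∣ (haveI : Fact q.Prime := ⟨hq⟩; padicValRat q d))) :
    {c : ℚˣ ⧸ (powMonoidHom (2 * m) : ℚˣ →* ℚˣ).range |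
      ∃ d : ℚˣ, QuotientGroup.mk d = c ∧ P d}.Infinite := by
  intro hfin
  let rep : ℚˣ ⧸ (powMonoidHom (2 * m) : ℚˣ →* ℚˣ).range → ℚˣ := Quotient.out
  have hrep : ∀ c, (QuotientGroup.mk (rep c) : ℚˣ ⧸ (powMonoidHom (2 * m) : ℚˣ →* ℚˣ).range)
      = c := fun c => Quotient.out_eq' c
  let B : ℕ := hfin.toFinset.sum (fun c => (rep c : ℚ).num.natAbs + (rep c : ℚ).den) + 1
  obtain ⟨q, hBq, hq, d, hd, hPd, hvd⟩ := h B
  have : Fact q.Prime := ⟨hq⟩
  have hval : ∀ x : ℚ, x ≠ 0 → x.num.natAbs + x.den < q → padicValRat q x = 0 := by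
    intro x hx hlt
    rw [padicValRat_def]
    have h1 : padicValInt q x.num = 0 := by
      apply padicValInt.eq_zero_of_not_dvd
      intro h
      have := Nat.le_of_dvd (Int.natAbs_pos.2 (Rat.num_ne_zero.2 hx)) (Int.natCast_dvd.1 h)
      omega
    have h2 : padicValNat q x.den = 0 := by
      apply padicValNat.eq_zero_of_not_dvd
      intro h
      have := Nat.le_of_dvd x.den_pos h
      omega
    rw [h1, h2]; norm_num
  let c : ℚˣ ⧸ (powMonoidHom (2 * m) : ℚˣ →* ℚˣ).range := QuotientGroup.mk (Units.mk0 d hd)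
  have hc : c ∈ hfin.toFinset := by
    rw [Set.Finite.mem_toFinset]
    exact ⟨Units.mk0 d hd, rfl, hPd⟩
  have hle : (rep c : ℚ).num.natAbs + (rep c : ℚ).den ≤
      hfin.toFinset.sum (fun c => (rep c : ℚ).num.natAbs + (rep c : ℚ).den) :=
    Finset.single_le_sum (f := fun c => (rep c : ℚ).num.natAbs + (rep c : ℚ).den)
      (fun _ _ => Nat.zero_le _) hc
  have hv0 : padicValRat q (rep c : ℚ) = 0 := hval _ (rep c).ne_zero (by omega)
  have heq : (QuotientGroup.mk (rep c) : ℚˣ ⧸ (powMonoidHom (2 * m) : ℚˣ →* ℚˣ).range) =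
      QuotientGroup.mk (Units.mk0 d hd) := hrep c
  rw [QuotientGroup.eq] at heq
  obtain ⟨t, ht⟩ := heq
  have ht' : (t : ℚ) ^ (2 * m) = (rep c : ℚ)⁻¹ * d := by
    have := congrArg (fun z : ℚˣ => (z : ℚ)) ht
    simpa using this
  have hv : padicValRat q ((t : ℚ) ^ (2 * m)) = padicValRat q ((rep c : ℚ)⁻¹ * d) := by
    rw [ht']
  rw [padicValRat.pow, padicValRat.mul (inv_ne_zero (rep c).ne_zero) hd,
    padicValRat.inv, hv0] at hv
  push_cast at hv
  exact hvd ⟨padicValRat q (t : ℚ), by linarith⟩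

end MP241ea1
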