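import Pool.Agent.Helper10.TW.Weights

/-! The p-adic core: a point near infinity cannot be torsion. -/

namespace MP241ea1

open Polynomial Finset

section units

variable {p : ℕ} [hp : Fact p.Prime]

lemma isUnit_of_val {x : Sp p} (hx : (x : ℚ) ≠ 0) (hv : padicValRat p (x : ℚ) = 0) : IsUnit x := by
  have hm : ((x : ℚ)⁻¹) ∈ Sp p := mem_Sp_of_val (by rw [padicValRat.inv, hv]; norm_num)
  refine IsUnit.of_mul_eq_one ⟨_, hm⟩ ?_
  apply Subtype.ext
  show (x : ℚ) * (x : ℚ)⁻¹ = 1
  exact mul_inv_cancel₀ hx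

lemma isUnit_one_add (e : Sp p) : IsUnit (1 + (p : Sp p) * e) := by
  have h := unit_of (p := p) (x := 1 + (p : Sp p) * e) (c := 1)
    (fun h => hp.out.one_lt.ne' (by exact_mod_cast Int.eq_one_of_dvd_one (by positivity) h))
    (by simp)
  exact isUnit_of_val h.1 h.2

lemma dvd_or_isUnit (x : Sp p) : (p : Sp p) ∣ x ∨ IsUnit x := by
  by_cases hx : (x : ℚ) = 0
  · left
    have : x = 0 := Subtype.ext hx
    rw [this]; exact dvd_zero _
  have h0 : 0 ≤ padicValRat p (x : ℚ) := by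
    have h := x.2
    rw [mem_Sp, padicNorm.eq_zpow_of_nonzero hx] at h
    by_contra hneg
    push Not at hneg
    have hp1 : (1 : ℚ) < p := by exact_mod_cast hp.out.one_lt
    have : (1 : ℚ) < (p : ℚ) ^ (-padicValRat p (x : ℚ)) := one_lt_zpow₀ hp1 (by linarith)
    linarith
  rcases h0.lt_or_eq with h | h
  · left
    obtain ⟨e, he⟩ := exists_mul_of_le (p := p) (n := 1) (x := (x : ℚ)) (by push_cast; linarith)
    refine ⟨e, Subtype.ext ?_⟩
    rw [he, pow_one]
    simp
  · right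
    exact isUnit_of_val hx h.symm

lemma eq_zero_of_forall_pow_dvd {x : Sp p} (h : ∀ M : ℕ, (p : Sp p) ^ M ∣ x) : x = 0 := by
  by_contra hx
  have hx' : (x : ℚ) ≠ 0 := fun h => hx (Subtype.ext h)
  have hp0 : (p : ℚ) ≠ 0 := by exact_mod_cast hp.out.ne_zero
  obtain ⟨M, hM⟩ : ∃ M : ℕ, padicValRat p (x : ℚ) < M :=
    ⟨(padicValRat p (x : ℚ)).toNat + 1, by
      have := Int.self_le_toNat (padicValRat p (x : ℚ)); push_cast; linarith⟩
  obtain ⟨e, he⟩ := h M
  have he' : (x : ℚ) = (p : ℚ) ^ M * e := by rw [he]; simp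
  have he0 : (e : ℚ) ≠ 0 := by
    intro h0; rw [h0, mul_zero] at he'; exact hx' he'
  have hev : 0 ≤ padicValRat p (e : ℚ) := by
    have h := e.2
    rw [mem_Sp, padicNorm.eq_zpow_of_nonzero he0] at h
    by_contra hneg
    push Not at hneg
    have hp1 : (1 : ℚ) < p := by exact_mod_cast hp.out.one_lt
    have : (1 : ℚ) < (p : ℚ) ^ (-padicValRat p (e : ℚ)) := one_lt_zpow₀ hp1 (by linarith)
    linarith
  rw [he', padicValRat.mul (pow_ne_zero _ hp0) he0, padicValRat.pow,
    padicValRat.self hp.out.one_lt] at hM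
  linarith

end units

/-- coefficients of `γ * ∑_{j < T} (z X)^j` -/
lemma coeff_geom {Z : Type*} [CommRing Z] (γ : Z[X]) (z : Z) {k₀ : ℕ} (hγ : γ.natDegree ≤ k₀)
    (T i : ℕ) :
    (γ * ∑ j ∈ range ((2 * k₀ + 1) * T), (C z * X) ^ j).coeff (k₀ + (2 * k₀ + 1) * i) =
      if i < T then z ^ ((2 * k₀ + 1) * i) * ∑ l ∈ range (k₀ + 1), γ.coeff l * z ^ (k₀ - l)
      else 0 := by
  have hcoef : ∀ j, (∑ j ∈ range ((2 * k₀ + 1) * T), (C z * X : Z[X]) ^ j).coeff j =
      if j < (2 * k₀ + 1) * T then z ^ j else 0 := by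
    intro j
    rw [finsetSum_coeff]
    simp only [mul_pow, ← C_pow, coeff_C_mul, coeff_X_pow]
    simp only [mul_ite, mul_one, mul_zero]
    rw [Finset.sum_ite_eq]
    simp only [mem_range]
  rw [coeff_mul, Finset.Nat.sum_antidiagonal_eq_sum_range_succ_mk]
  simp only [hcoef]
  have hsplit : ∀ l ∈ range (k₀ + (2 * k₀ + 1) * i).succ, l ∉ range (k₀ + 1) →
      γ.coeff l * (if k₀ + (2 * k₀ + 1) * i - l < (2 * k₀ + 1) * T then
        z ^ (k₀ + (2 * k₀ + 1) * i - l) else 0) = 0 := by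
    intro l _ hl
    rw [mem_range, not_lt] at hl
    rw [coeff_eq_zero_of_natDegree_lt (by omega), zero_mul]
  have hsub : range (k₀ + 1) ⊆ range (k₀ + (2 * k₀ + 1) * i).succ := by
    apply range_subset_range.2
    omega
  rw [← sum_subset hsub hsplit]
  split_ifs with h
  · rw [mul_sum]
    refine sum_congr rfl fun l hl => ?_
    rw [mem_range] at hl
    have h1 : k₀ + (2 * k₀ + 1) * i - l < (2 * k₀ + 1) * T := by
      have : (2 * k₀ + 1) * (i + 1) ≤ (2 * k₀ + 1) * T := Nat.mul_le_mul_left _ h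
      rw [mul_add, mul_one] at this
      omega
    rw [if_pos h1]
    have : k₀ + (2 * k₀ + 1) * i - l = (2 * k₀ + 1) * i + (k₀ - l) := by omega
    rw [this, pow_add]
    ring
  · apply sum_eq_zero
    intro l hl
    rw [mem_range] at hl
    rw [if_neg, mul_zero]
    have : (2 * k₀ + 1) * T ≤ (2 * k₀ + 1) * i := Nat.mul_le_mul_left _ (by omega)
    omega

/-- From the congruence to divisibility of the functional. -/
theorem core {p : ℕ} [hp : Fact p.Prime] (hp2 : p ≠ 2) {k₀ : ℕ} (hk₀ : 1 ≤ k₀) (κ₀ : Sp p)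
    {z₁ c N u : Sp p} {A B A₁ B₁ γ : (Sp p)[X]} {n : ℕ} (hn : n ≠ 0)
    (hid : A ^ 2 - (X ^ (2 * k₀ + 1) + C ((p : Sp p) ^ (2 * k₀ + 1) * κ₀)) * B ^ 2 =
      C c * (1 - C ((p : Sp p) * z₁) * X) ^ n)
    (hc : IsUnit c) (hu : IsUnit u) (hA : A = C u + C (p : Sp p) * A₁)
    (hB : B = C (p : Sp p) * B₁) (hγ : γ.natDegree ≤ k₀)
    (hE : C N * (A * DD (X ^ (2 * k₀ + 1) + C ((p : Sp p) ^ (2 * k₀ + 1) * κ₀)) B -
      2 * (X ^ (2 * k₀ + 1) + C ((p : Sp p) ^ (2 * k₀ + 1) * κ₀)) * derivative A * B) =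
      γ * (1 - C ((p : Sp p) * z₁) * X) ^ (n - 1)) :
    ∑ l ∈ range (k₀ + 1), γ.coeff l * ((p : Sp p) * z₁) ^ (k₀ - l) = 0 := by
  obtain ⟨w, hw0, hw⟩ := exists_weights hp2 (2 * k₀ + 1) κ₀
  set κ : Sp p := (p : Sp p) ^ (2 * k₀ + 1) * κ₀ with hκ
  set f : (Sp p)[X] := X ^ (2 * k₀ + 1) + C κ with hf
  set z : Sp p := (p : Sp p) * z₁ with hz
  set G₀ := ∑ l ∈ range (k₀ + 1), γ.coeff l * z ^ (k₀ - l) with hG₀
  obtain ⟨ci, hci⟩ := hc.exists_right_inv
  obtain ⟨ui, hui⟩ := hu.exists_right_inv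
  apply eq_zero_of_forall_pow_dvd
  intro M
  -- the polynomials
  obtain ⟨At, hAtd⟩ : ∃ At : (Sp p)[X],
      At = C ui * ∑ j ∈ range M, (-(C (p : Sp p) * C ui * A₁)) ^ j := ⟨_, rfl⟩
  obtain ⟨β, hβd⟩ : ∃ β : (Sp p)[X], β = B * At := ⟨_, rfl⟩
  obtain ⟨L, hLd⟩ : ∃ L : (Sp p)[X], L = ∑ j ∈ range ((2 * k₀ + 1) * M), (C z * X) ^ j := ⟨_, rfl⟩
  obtain ⟨R, hRd⟩ : ∃ R : (Sp p)[X], R = C ci * (γ * L) := ⟨_, rfl⟩
  let Q : ℕ → (Sp p)[X] := fun j => f ^ j * β ^ (2 * j + 1)
  obtain ⟨I, hI⟩ : ∃ I : Ideal (Sp p)[X], I = Ideal.span {C ((p : Sp p) ^ M)} := ⟨_, rfl⟩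
  let π : (Sp p)[X] →+* (Sp p)[X] ⧸ I := Ideal.Quotient.mk I
  have hπ : ∀ P : (Sp p)[X], π (C ((p : Sp p) ^ M) * P) = 0 := fun P =>
    Ideal.Quotient.eq_zero_iff_mem.2 (by
      rw [hI]; exact Ideal.mul_mem_right _ _ (Ideal.mem_span_singleton_self _))
  have hderiv : ∀ P : (Sp p)[X], π P = 0 → π (derivative P) = 0 := by
    intro P hP
    rw [Ideal.Quotient.eq_zero_iff_mem, hI, Ideal.mem_span_singleton] at hP
    obtain ⟨t, rfl⟩ := hP
    rw [derivative_C_mul]
    exact hπ _
  -- `A * At = 1` in the quotient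
  have hAAt : π (A * At - 1) = 0 := by
    have e : A * At - 1 = -((-(C (p : Sp p) * C ui * A₁)) ^ M) := by
      have h1 : A * C ui = 1 - (-(C (p : Sp p) * C ui * A₁)) := by
        rw [hA]
        have : (C u * C ui : (Sp p)[X]) = 1 := by rw [← C_mul, hui, C_1]
        linear_combination this
      have h2 := mul_neg_geom_sum (-(C (p : Sp p) * C ui * A₁)) M
      rw [hAtd, ← mul_assoc, h1, h2]
      ring
    have e2 : (-(C (p : Sp p) * C ui * A₁)) ^ M =
        C ((p : Sp p) ^ M) * ((-1) ^ M * (C ui ^ M * A₁ ^ M)) := by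
      refine (neg_pow (C (p : Sp p) * C ui * A₁) M).trans ?_
      rw [mul_pow, mul_pow, ← C_pow]
      ring
    have e3 : A * At - 1 = C ((p : Sp p) ^ M) * (-((-1) ^ M * (C ui ^ M * A₁ ^ M))) := by
      rw [e, e2]; ring
    rw [e3]
    exact hπ _
  have h1 : π A * π At = 1 := by
    rw [map_sub, map_mul, map_one, sub_eq_zero] at hAAt
    exact hAAt
  have h1' : π (derivative A) * π At + π A * π (derivative At) = 0 := by
    have := hderiv _ hAAt
    rw [derivative_sub, derivative_mul, derivative_one, sub_zero, map_add, map_mul, map_mul] at this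
    exact this
  -- geometric series
  have hL : π (1 - C z * X) * π L = 1 := by
    have h2 := mul_neg_geom_sum (C z * X : (Sp p)[X]) ((2 * k₀ + 1) * M)
    have h3 : π ((C z * X : (Sp p)[X]) ^ ((2 * k₀ + 1) * M)) = 0 := by
      have : (C z * X : (Sp p)[X]) ^ ((2 * k₀ + 1) * M) =
          C ((p : Sp p) ^ M) * (C ((p : Sp p) ^ (2 * k₀ * M)) * (C z₁ * X) ^ ((2 * k₀ + 1) * M)) := by
        rw [hz, C_mul, mul_assoc, mul_pow, ← mul_assoc, ← C_mul, ← pow_add, ← C_pow]
        congr 2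
        ring
      rw [this]
      exact hπ _
    rw [← map_mul, hLd, h2, map_sub, h3, map_one, sub_zero]
  have hcc : π (C c) * π (C ci) = 1 := by rw [← map_mul, ← C_mul, hci, C_1, map_one]
  -- main congruence
  have hmain : (1 - π f * π β ^ 2) * π R = π (C N) * π (DD f β) := by
    have hid' := congrArg π hid
    have hE' := congrArg π hE
    obtain ⟨n', rfl⟩ : ∃ n', n = n' + 1 := ⟨n - 1, by omega⟩
    rw [Nat.add_sub_cancel] at hE'
    have hβ : π β = π B * π At := by rw [hβd, map_mul]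
    have hdβ : π (derivative β) = π (derivative B) * π At + π B * π (derivative At) := by
      rw [hβd, derivative_mul, map_add, map_mul, map_mul]
    have hR : π R = π (C ci) * (π γ * π L) := by
      rw [hRd, map_mul, map_mul]
    have hDB : π (DD f B) = 2 * π f * π (derivative B) + π (derivative f) * π B := by
      unfold DD
      rw [map_add, map_mul, map_mul, map_mul, map_ofNat]
    have hDβ : π (DD f β) = 2 * π f * π (derivative β) + π (derivative f) * π β := by
      unfold DD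
      rw [map_add, map_mul, map_mul, map_mul, map_ofNat]
    rw [map_sub, map_mul, map_pow, map_pow, map_mul, map_pow] at hid'
    rw [map_mul, map_sub, map_mul, hDB, map_mul, map_mul, map_mul, map_ofNat, map_mul, map_pow]
      at hE'
    rw [hDβ, hdβ, hβ, hR]
    generalize π A = a at *
    generalize π At = at' at *
    generalize π (derivative A) = da at *
    generalize π (derivative At) = dat at *
    generalize π B = b at *
    generalize π (derivative B) = db at *
    generalize π f = F at *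
    generalize π (derivative f) = dF at *
    generalize π L = l at *
    generalize π γ = g at *
    generalize π (C c) = cc at *
    generalize π (C ci) = cci at *
    generalize π (C N) = nn at *
    generalize π (1 - C z * X) = y at *
    have hdat : dat = -da * at' ^ 2 := by linear_combination at' * h1' - dat * h1
    have e1 : (1 - F * (b * at') ^ 2) = at' ^ 2 * (a ^ 2 - F * b ^ 2) := by
      linear_combination (-(1 + a * at')) * h1
    rw [e1, hid', hdat]
    have e2 : at' ^ 2 * (cc * y ^ (n' + 1)) * (cci * (g * l)) = at' ^ 2 * (g * y ^ n') := by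
      have : at' ^ 2 * (cc * y ^ (n' + 1)) * (cci * (g * l)) =
          at' ^ 2 * (g * y ^ n') * (cc * cci) * (y * l) := by ring
      rw [this, hcc, hL]; ring
    rw [e2, ← hE']
    linear_combination (2 * nn * F * db * at' + nn * dF * b * at') * h1
  -- iterate
  have hβp : π ((f * β ^ 2) ^ M) = 0 := by
    have : (f * β ^ 2) ^ M = C ((p : Sp p) ^ M) * (C ((p : Sp p) ^ M) * (f * (B₁ * At) ^ 2) ^ M) := by
      rw [hβd, hB, C_pow]
      ring
    rw [this]
    exact hπ _
  have hfin : π (R - C N * ∑ j ∈ range M, (f * β ^ 2) ^ j * DD f β) = 0 := by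
    have hS := mul_neg_geom_sum (f * β ^ 2) M
    have hS' : (1 - π f * π β ^ 2) * π (∑ j ∈ range M, (f * β ^ 2) ^ j) = 1 := by
      have := congrArg π hS
      rw [map_mul, map_sub, map_sub, map_one, hβp, sub_zero, map_mul, map_pow] at this
      exact this
    rw [← Finset.sum_mul, map_sub, map_mul, map_mul]
    have : π R = π R * ((1 - π f * π β ^ 2) * π (∑ j ∈ range M, (f * β ^ 2) ^ j)) := by
      rw [hS', mul_one]
    rw [this]
    linear_combination π (∑ j ∈ range M, (f * β ^ 2) ^ j) * hmain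
  rw [Ideal.Quotient.eq_zero_iff_mem, hI, Ideal.mem_span_singleton] at hfin
  obtain ⟨t, ht⟩ := hfin
  -- apply the functional
  let NN : ℕ := ∑ j ∈ range M, (Q j).natDegree + M + 1
  have hPhiR : Phi w k₀ (2 * k₀ + 1) NN R = (p : Sp p) ^ M * Phi w k₀ (2 * k₀ + 1) NN t := by
    have hR : R = C N * ∑ j ∈ range M, (f * β ^ 2) ^ j * DD f β + C ((p : Sp p) ^ M) * t := by
      rw [← ht]; ring
    rw [hR, Phi_add, Phi_C_mul, Phi_C_mul, Phi_sum]
    have : ∀ j ∈ range M, Phi w k₀ (2 * k₀ + 1) NN ((f * β ^ 2) ^ j * DD f β) = 0 := by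
      intro j hj
      have h0 := Phi_DD hk₀ κ w (by
        intro i
        have := hw i
        push_cast at this
        linear_combination this) (Q j) NN (by
        have : (Q j).natDegree ≤ ∑ j ∈ range M, (Q j).natDegree :=
          Finset.single_le_sum (f := fun j => (Q j).natDegree) (fun _ _ => Nat.zero_le _) hj
        omega)
      have h1 : DD (X ^ (2 * k₀ + 1) + C κ) (Q j) =
          C (2 * (j : Sp p) + 1) * ((f * β ^ 2) ^ j * DD f β) := by
        rw [← hf, ← DD_pow]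
        simp only [C_add, C_mul, C_1, map_natCast, map_ofNat]
      rw [h1, Phi_C_mul] at h0
      rcases mul_eq_zero.1 h0 with h | h
      · exfalso
        have : ((2 * (j : Sp p) + 1 : Sp p) : ℚ) = 0 := by rw [h]; rfl
        push_cast at this
        rw [coe_ofNat] at this
        have h2 : (0 : ℚ) < 2 * (j : ℚ) + 1 := by positivity
        exact h2.ne' this
      · exact h
    rw [Finset.sum_eq_zero this, mul_zero, zero_add]
  -- evaluate the functional on `R`
  have hval : Phi w k₀ (2 * k₀ + 1) NN R =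
      ci * ((∑ i ∈ range M, w i * z ^ ((2 * k₀ + 1) * i)) * G₀) := by
    rw [hRd, Phi_C_mul]
    congr 1
    unfold Phi
    have : ∀ i, w i * (γ * L).coeff (k₀ + (2 * k₀ + 1) * i) =
        if i < M then w i * z ^ ((2 * k₀ + 1) * i) * G₀ else 0 := by
      intro i
      rw [hLd, coeff_geom γ z hγ M i]
      split_ifs
      · ring
      · ring
    simp only [this]
    rw [← Finset.sum_filter, Finset.sum_mul]
    apply Finset.sum_congr _ fun _ _ => rfl
    ext i
    simp only [mem_filter, mem_range]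
    omega
  rcases Nat.eq_zero_or_pos M with rfl | hM
  · simp
  have hunit : IsUnit (∑ i ∈ range M, w i * z ^ ((2 * k₀ + 1) * i)) := by
    obtain ⟨M, rfl⟩ : ∃ M', M = M' + 1 := ⟨M - 1, by omega⟩
    rw [Finset.sum_range_succ']
    have : ∑ i ∈ range M, w (i + 1) * z ^ ((2 * k₀ + 1) * (i + 1)) + w 0 * z ^ ((2 * k₀ + 1) * 0) =
        1 + (p : Sp p) * (∑ i ∈ range M, w (i + 1) * (z₁ * z ^ (2 * k₀ + (2 * k₀ + 1) * i))) := by
      rw [hw0, mul_zero, pow_zero, mul_one, add_comm, mul_sum]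
      congr 1
      refine sum_congr rfl fun i _ => ?_
      have : (2 * k₀ + 1) * (i + 1) = 1 + (2 * k₀ + (2 * k₀ + 1) * i) := by ring
      rw [this, pow_add, pow_one]
      nth_rw 1 [hz]
      ring
    rw [this]
    exact isUnit_one_add _
  have hciu : IsUnit ci := IsUnit.of_mul_eq_one c (by rw [mul_comm]; exact hci)
  have hdvd : (p : Sp p) ^ M ∣ ci * ((∑ i ∈ range M, w i * z ^ ((2 * k₀ + 1) * i)) * G₀) := by
    rw [← hval, hPhiR]
    exact dvd_mul_right _ _
  rwa [hciu.dvd_mul_left, hunit.dvd_mul_left] at hdvd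

end MP241ea1
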