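import Mathlib

/-! Definitions for MP_241ea1_nt: the Jacobian of `y² = f(x)` via the class group of its affine
coordinate ring, and elements of infinite order from pairs of ideals. -/

namespace MP241ea1

open Polynomial nonZeroDivisors

/-- The affine coordinate ring `ℚ[x, y] / (y² - f(x))` of the curve `y² = f(x)`. -/
abbrev CoordRing (f : ℚ[X]) : Type := AdjoinRoot (X ^ 2 - C f : ℚ[X][X])

/-- For squarefree `f` of odd degree (one rational point at infinity) the class group of
`CoordRing f` is the group of rational points of the Jacobian of `y² = f(x)`; `PosRank f` says that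
it is the class group of a domain and that it has an element of infinite order, i.e. that the
Jacobian has positive rank over `ℚ`. -/
def PosRank (f : ℚ[X]) : Prop :=
  ∃ _ : IsDomain (CoordRing f), ∃ c : ClassGroup (CoordRing f), ∀ n : ℕ, n ≠ 0 → c ^ n ≠ 1

/-- `d` is admissible for `(m, a)`: the Jacobians of the three twists
`d y² = x^m + a` (written `y² = d⁻¹ (x^m + a)`), `y² = x^m + a d^(m-1)`, `y² = x^m + a d` of
`y² = x^m + a` all have positive rank over `ℚ`. -/
def Admissible (m : ℕ) (a d : ℚ) : Prop :=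
  PosRank (C d⁻¹ * (X ^ m + C a)) ∧ PosRank (X ^ m + C (a * d ^ (m - 1))) ∧
    PosRank (X ^ m + C (a * d))

lemma monic_aux (f : ℚ[X]) : (X ^ 2 - C f : ℚ[X][X]).Monic := by
  apply monic_X_pow_sub_C f (by norm_num)

lemma isDomain_coordRing {f : ℚ[X]} (hf : Odd f.natDegree) : IsDomain (CoordRing f) := by
  apply AdjoinRoot.isDomain_of_prime
  apply Irreducible.prime
  have hdeg : (X ^ 2 - C f : ℚ[X][X]).natDegree = 2 := natDegree_X_pow_sub_C
  rw [(monic_aux f).irreducible_iff_roots_eq_zero_of_degree_le_three (by rw [hdeg])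
    (by rw [hdeg]; norm_num)]
  rw [Multiset.eq_zero_iff_forall_notMem]
  intro r hr
  have h := (mem_roots'.1 hr).2
  simp only [IsRoot.def, eval_sub, eval_pow, eval_X, eval_C, sub_eq_zero] at h
  rw [← h, natDegree_pow] at hf
  exact (Nat.not_odd_iff_even.2 ⟨r.natDegree, by ring⟩) hf

section

variable {A : Type*} [CommRing A] [IsDomain A]

/-- In a domain, if `J * J' = (U)` with `U ≠ 0` and no positive powers of `J` and `J'` are both
principal, then the class of `J` has infinite order. -/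
theorem classGroup_of_ideals (J J' : Ideal A) (U : A) (hU : U ≠ 0)
    (hmul : J * J' = Ideal.span {U})
    (hnp : ∀ n : ℕ, n ≠ 0 → ∀ g h : A, J ^ n = Ideal.span {g} → J' ^ n = Ideal.span {h} → False) :
    ∃ c : ClassGroup A, ∀ n : ℕ, n ≠ 0 → c ^ n ≠ 1 := by
  let K := FractionRing A
  let u : (FractionalIdeal A⁰ K)ˣ := Units.mkOfMulEqOne (J : FractionalIdeal A⁰ K)
    ((J' : FractionalIdeal A⁰ K) * ((Ideal.span {U} : Ideal A) : FractionalIdeal A⁰ K)⁻¹) (by
      rw [← mul_assoc, ← FractionalIdeal.coeIdeal_mul, hmul,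
        FractionalIdeal.coe_ideal_span_singleton_mul_inv K hU])
  refine ⟨ClassGroup.mk K u, fun n hn h1 => ?_⟩
  rw [← map_pow] at h1
  have hu : ((u ^ n : (FractionalIdeal A⁰ K)ˣ) : FractionalIdeal A⁰ K) = ((J ^ n : Ideal A) :
      FractionalIdeal A⁰ K) := by
    rw [Units.val_pow_eq_pow_val, FractionalIdeal.coeIdeal_pow]
    rfl
  obtain ⟨g, hg0, hg⟩ := (ClassGroup.mk_eq_one_of_coe_ideal hu).1 h1
  have hm : J ^ n * J' ^ n = Ideal.span {U ^ n} := by
    rw [← mul_pow, hmul, Ideal.span_singleton_pow]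
  rw [hg] at hm
  obtain ⟨h, hh, hgh⟩ := Ideal.mem_span_singleton_mul.1
    (show U ^ n ∈ Ideal.span {g} * J' ^ n by rw [hm]; exact Ideal.mem_span_singleton_self _)
  refine hnp n hn g h hg (le_antisymm ?_ ?_)
  · intro z hz
    have : g * z ∈ Ideal.span {U ^ n} := by
      rw [← hm]
      exact Ideal.mul_mem_mul (Ideal.mem_span_singleton_self _) hz
    obtain ⟨w, hw⟩ := Ideal.mem_span_singleton'.1 this
    rw [← hgh] at hw
    rw [Ideal.mem_span_singleton']
    exact ⟨w, mul_left_cancel₀ hg0 (by rw [← hw]; ring)⟩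
  · rw [Ideal.span_singleton_le_iff_mem]
    exact hh

/-- `(U, V₁) (U, V₂) = (U)` if `V₁ V₂ ∈ (U)` and `V₂ - V₁` is a unit. -/
lemma span_pair_mul_eq {A : Type*} [CommRing A] {U V₁ V₂ W : A} (hV : V₁ * V₂ = U * W)
    (hunit : IsUnit (V₂ - V₁)) :
    Ideal.span {U, V₁} * Ideal.span {U, V₂} = Ideal.span {U} := by
  apply le_antisymm
  · rw [Ideal.span_pair_mul_span_pair, Ideal.span_le]
    rintro z (rfl | rfl | rfl | rfl) <;> rw [SetLike.mem_coe, Ideal.mem_span_singleton]
    · exact dvd_mul_right _ _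
    · exact dvd_mul_right _ _
    · exact dvd_mul_left _ _
    · rw [hV]; exact dvd_mul_right _ _
  · rw [Ideal.span_singleton_le_iff_mem]
    obtain ⟨t, ht⟩ := hunit
    have h1 : U * V₂ ∈ Ideal.span {U, V₁} * Ideal.span {U, V₂} :=
      Ideal.mul_mem_mul (Ideal.subset_span (by simp)) (Ideal.subset_span (by simp))
    have h2 : V₁ * U ∈ Ideal.span {U, V₁} * Ideal.span {U, V₂} :=
      Ideal.mul_mem_mul (Ideal.subset_span (by simp)) (Ideal.subset_span (by simp))
    have h3 := Ideal.mul_mem_left _ (↑t⁻¹ : A) (Ideal.sub_mem _ h1 h2)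
    have : (↑t⁻¹ : A) * (U * V₂ - V₁ * U) = U := by
      have : U * V₂ - V₁ * U = U * (V₂ - V₁) := by ring
      rw [this, ← ht, mul_left_comm, Units.inv_mul, mul_one]
    rwa [this] at h3

end

end MP241ea1
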