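import Mathlib

/-! Principal powers descend along a finite free ring extension (norm argument). -/

namespace MP241ea1

open Ideal

variable {R S : Type*} [CommRing R] [CommRing S] [Algebra R S] {k : ℕ}

lemma repr_mem_of_mem_map (b : Module.Basis (Fin k) R S) (J : Ideal R) {z : S}
    (hz : z ∈ J.map (algebraMap R S)) (i : Fin k) : b.repr z i ∈ J := by
  have hz' : z ∈ (J • (⊤ : Submodule R S)) := by
    rw [Ideal.smul_top_eq_map]
    exact hz
  refine Submodule.smul_induction_on hz' ?_ ?_
  · intro r hr s _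
    rw [map_smul, Finsupp.smul_apply, smul_eq_mul]
    exact J.mul_mem_right _ hr
  · intro x y hx hy
    rw [map_add, Finsupp.add_apply]
    exact J.add_mem hx hy

lemma norm_one_sub_mem (b : Module.Basis (Fin k) R S) (J : Ideal R) {z : S}
    (hz : z ∈ J.map (algebraMap R S)) : Algebra.norm R (1 - z) - 1 ∈ J := by
  rw [← Ideal.Quotient.eq_zero_iff_mem, map_sub, map_one, sub_eq_zero,
    Algebra.norm_eq_matrix_det b, RingHom.map_det, map_sub, map_one, map_sub, map_one]
  have : (Ideal.Quotient.mk J).mapMatrix (Algebra.leftMulMatrix b z) = 0 := by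
    ext i j
    simp only [RingHom.mapMatrix_apply, Matrix.map_apply, Matrix.zero_apply]
    rw [Ideal.Quotient.eq_zero_iff_mem, Algebra.leftMulMatrix_eq_repr_mul]
    exact repr_mem_of_mem_map b J (Ideal.mul_mem_right _ _ hz) i
  rw [this, sub_zero, Matrix.det_one]

lemma sup_norm_eq_top (b : Module.Basis (Fin k) R S) (J : Ideal R) {g : S}
    (hg : Ideal.span {g} ⊔ J.map (algebraMap R S) = ⊤) :
    Ideal.span {Algebra.norm R g} ⊔ J = ⊤ := by
  rw [Ideal.eq_top_iff_one, Submodule.mem_sup] at hg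
  obtain ⟨y, hy, z, hz, hyz⟩ := hg
  obtain ⟨s, rfl⟩ := Ideal.mem_span_singleton'.1 hy
  have h1 : s * g = 1 - z := by rw [← hyz]; ring
  have h2 := norm_one_sub_mem b J hz
  rw [← h1, map_mul] at h2
  rw [Ideal.eq_top_iff_one, Submodule.mem_sup]
  refine ⟨Algebra.norm R s * Algebra.norm R g, Ideal.mem_span_singleton'.2 ⟨_, rfl⟩,
    -(Algebra.norm R s * Algebra.norm R g - 1), J.neg_mem h2, by ring⟩

lemma span_eq_of_mul_eq {I J : Ideal R} {G H : R} (hmul : Ideal.span {G} * Ideal.span {H} = I * J)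
    (hGJ : Ideal.span {G} ⊔ J = ⊤) (hHI : Ideal.span {H} ⊔ I = ⊤) : I = Ideal.span {G} := by
  apply le_antisymm
  · calc I = I * (Ideal.span {G} ⊔ J) := by rw [hGJ, Ideal.mul_top]
      _ = I * Ideal.span {G} ⊔ I * J := by rw [Ideal.mul_sup]
      _ ≤ Ideal.span {G} := by
        rw [← hmul]
        exact sup_le Ideal.mul_le_right Ideal.mul_le_left
  · calc Ideal.span {G} = Ideal.span {G} * (Ideal.span {H} ⊔ I) := by rw [hHI, Ideal.mul_top]
      _ = Ideal.span {G} * Ideal.span {H} ⊔ Ideal.span {G} * I := by rw [Ideal.mul_sup]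
      _ ≤ I := by
        rw [hmul]
        exact sup_le Ideal.mul_le_left Ideal.mul_le_right

/-- If `I * J = (u)` with `I`, `J` comaximal and `(I S)^n = (g)`, `(J S)^n = (h)` in a free
extension `S` of rank `k` of `R`, then `I^(n k) = (N g)`. -/
theorem norm_transfer (b : Module.Basis (Fin k) R S) (I J : Ideal R) (u : R)
    (hIJ : I * J = Ideal.span {u}) (hsup : I ⊔ J = ⊤) (n : ℕ) (g h : S)
    (hg : (I.map (algebraMap R S)) ^ n = Ideal.span {g})
    (hh : (J.map (algebraMap R S)) ^ n = Ideal.span {h}) :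
    I ^ (n * k) = Ideal.span {Algebra.norm R g} := by
  have hsupS : I.map (algebraMap R S) ⊔ J.map (algebraMap R S) = ⊤ := by
    rw [← Ideal.map_sup, hsup, Ideal.map_top]
  have hmul : Ideal.span {g} * Ideal.span {h} = Ideal.span {(algebraMap R S u) ^ n} := by
    rw [← hg, ← hh, ← mul_pow, ← Ideal.map_mul, hIJ, Ideal.map_span, Set.image_singleton,
      Ideal.span_singleton_pow]
  rw [Ideal.span_singleton_mul_span_singleton] at hmul
  have h1 : Ideal.span {Algebra.norm R g} * Ideal.span {Algebra.norm R h}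
      = I ^ (n * k) * J ^ (n * k) := by
    rw [← mul_pow, hIJ, Ideal.span_singleton_pow, Ideal.span_singleton_mul_span_singleton,
      ← map_mul]
    have hn : Algebra.norm R ((algebraMap R S u) ^ n) = u ^ (n * k) := by
      rw [map_pow, Algebra.norm_algebraMap_of_basis b, Fintype.card_fin, ← pow_mul, mul_comm]
    obtain ⟨w, hw⟩ := Ideal.mem_span_singleton'.1
      (show g * h ∈ Ideal.span {(algebraMap R S u) ^ n} by
        rw [← hmul]; exact Ideal.mem_span_singleton_self _)
    obtain ⟨w', hw'⟩ := Ideal.mem_span_singleton'.1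
      (show (algebraMap R S u) ^ n ∈ Ideal.span {g * h} by
        rw [hmul]; exact Ideal.mem_span_singleton_self _)
    apply le_antisymm
    · rw [Ideal.span_singleton_le_span_singleton]
      exact ⟨Algebra.norm R w, by rw [← hw, map_mul, hn, mul_comm]⟩
    · rw [Ideal.span_singleton_le_span_singleton]
      exact ⟨Algebra.norm R w', by rw [← hn, ← hw', map_mul, mul_comm]⟩
  have hgJ : Ideal.span {g} ⊔ J.map (algebraMap R S) = ⊤ := by
    rw [← hg]
    exact Ideal.pow_sup_eq_top hsupS
  have hhI : Ideal.span {h} ⊔ I.map (algebraMap R S) = ⊤ := by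
    rw [← hh]
    exact Ideal.pow_sup_eq_top (by rw [sup_comm]; exact hsupS)
  refine span_eq_of_mul_eq h1 ?_ ?_
  · exact Ideal.sup_pow_eq_top (sup_norm_eq_top b J hgJ)
  · exact Ideal.sup_pow_eq_top (sup_norm_eq_top b I hhI)

end MP241ea1
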