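import Pool.Agent.Helper10.TW.NonTors
import Pool.Agent.Helper10.TW.Transfer
import Pool.Agent.Helper10.TW.Defs

/-! From a point of infinite order on `y² = x³ + κ` to an element of infinite order in the class
group of the coordinate ring of a curve `y² = f(x)` covering it. -/

namespace MP241ea1

open Polynomial WeierstrassCurve WeierstrassCurve.Affine

section

variable (κ : ℚ)

/-- coordinate ring of `y² = x³ + κ` -/
abbrev RC : Type := (WC κ).toAffine.CoordinateRing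

/-- the class of `X` -/
noncomputable def xR : RC κ := CoordinateRing.mk (WC κ).toAffine (C X)

/-- the class of `Y` -/
noncomputable def yR : RC κ := CoordinateRing.mk (WC κ).toAffine X

lemma yR_sq : yR κ ^ 2 = xR κ ^ 3 + algebraMap ℚ (RC κ) κ := by
  have h2 : (X ^ 2 - C (X ^ 3 + C κ) : ℚ[X][X]) = (WC κ).toAffine.polynomial := by
    simp [WeierstrassCurve.Affine.polynomial]
  have h : CoordinateRing.mk (WC κ).toAffine (X ^ 2 - C (X ^ 3 + C κ)) = 0 := by
    rw [h2]; exact AdjoinRoot.mk_self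
  rw [map_sub, sub_eq_zero, map_pow] at h
  rw [yR, h, xR, ← map_pow]
  simp only [C_pow, map_add]
  rfl

lemma XClass_eq (x : ℚ) : CoordinateRing.XClass (WC κ).toAffine x = xR κ - algebraMap ℚ (RC κ) x := by
  rw [CoordinateRing.XClass, C_sub, map_sub]
  rfl

lemma YClass_eq (y : ℚ) : CoordinateRing.YClass (WC κ).toAffine (C y) = yR κ - algebraMap ℚ (RC κ) y := by
  rw [CoordinateRing.YClass, map_sub]
  rfl

variable {κ}

lemma XYIdeal_mul {x₀ y₀ : ℚ} (hP : y₀ ^ 2 = x₀ ^ 3 + κ) (hy₀ : y₀ ≠ 0) :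
    CoordinateRing.XYIdeal (WC κ).toAffine x₀ (C y₀) *
      CoordinateRing.XYIdeal (WC κ).toAffine x₀ (C (-y₀)) =
      Ideal.span {xR κ - algebraMap ℚ (RC κ) x₀} := by
  rw [CoordinateRing.XYIdeal, CoordinateRing.XYIdeal, XClass_eq, YClass_eq, YClass_eq]
  apply span_pair_mul_eq (W := xR κ ^ 2 + xR κ * algebraMap ℚ (RC κ) x₀ + algebraMap ℚ (RC κ) x₀ ^ 2)
  · have h1 : algebraMap ℚ (RC κ) y₀ ^ 2 = algebraMap ℚ (RC κ) x₀ ^ 3 + algebraMap ℚ (RC κ) κ := by
      rw [← map_pow, hP, map_add, map_pow]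
    have h2 := yR_sq κ
    rw [map_neg]
    linear_combination h2 - h1
  · rw [map_neg]
    have : yR κ - -algebraMap ℚ (RC κ) y₀ - (yR κ - algebraMap ℚ (RC κ) y₀)
        = algebraMap ℚ (RC κ) (2 * y₀) := by rw [map_mul, map_ofNat]; ring
    rw [this]
    exact (IsUnit.mk0 (2 * y₀) (by simpa using hy₀)).map _

lemma XYIdeal_sup {x₀ y₀ : ℚ} (hy₀ : y₀ ≠ 0) :
    CoordinateRing.XYIdeal (WC κ).toAffine x₀ (C y₀) ⊔
      CoordinateRing.XYIdeal (WC κ).toAffine x₀ (C (-y₀)) = ⊤ := by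
  rw [CoordinateRing.XYIdeal, CoordinateRing.XYIdeal, XClass_eq, YClass_eq, YClass_eq, map_neg]
  have h1 : yR κ - algebraMap ℚ (RC κ) y₀ ∈
      Ideal.span {xR κ - algebraMap ℚ (RC κ) x₀, yR κ - algebraMap ℚ (RC κ) y₀} ⊔
      Ideal.span {xR κ - algebraMap ℚ (RC κ) x₀, yR κ - -algebraMap ℚ (RC κ) y₀} :=
    Ideal.mem_sup_left (Ideal.subset_span (by simp))
  have h2 : yR κ - -algebraMap ℚ (RC κ) y₀ ∈
      Ideal.span {xR κ - algebraMap ℚ (RC κ) x₀, yR κ - algebraMap ℚ (RC κ) y₀} ⊔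
      Ideal.span {xR κ - algebraMap ℚ (RC κ) x₀, yR κ - -algebraMap ℚ (RC κ) y₀} :=
    Ideal.mem_sup_right (Ideal.subset_span (by simp))
  have h3 := Ideal.sub_mem _ h2 h1
  have : yR κ - -algebraMap ℚ (RC κ) y₀ - (yR κ - algebraMap ℚ (RC κ) y₀)
      = algebraMap ℚ (RC κ) (2 * y₀) := by rw [map_mul, map_ofNat]; ring
  rw [this] at h3
  exact Ideal.eq_top_of_isUnit_mem _ h3 ((IsUnit.mk0 (2 * y₀) (by simpa using hy₀)).map _)

lemma XYIdeal_pow_not_principal {x₀ y₀ : ℚ} (h : (WC κ).toAffine.Nonsingular x₀ y₀)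
    (hnt : ∀ n : ℕ, n ≠ 0 → n • (Point.some x₀ y₀ h : (WC κ).toAffine.Point) ≠ 0)
    (N : ℕ) (hN : N ≠ 0) (G : RC κ)
    (hG : CoordinateRing.XYIdeal (WC κ).toAffine x₀ (C y₀) ^ N = Ideal.span {G}) : False := by
  have hG0 : G ≠ 0 := by
    rintro rfl
    rw [Ideal.span_singleton_eq_bot.2 rfl, ← Ideal.zero_eq_bot, pow_eq_zero_iff hN,
      Ideal.zero_eq_bot] at hG
    have h1 : CoordinateRing.XClass (WC κ).toAffine x₀ ∈
        CoordinateRing.XYIdeal (WC κ).toAffine x₀ (C y₀) := Ideal.subset_span (by simp)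
    rw [hG, Ideal.mem_bot] at h1
    exact CoordinateRing.XClass_ne_zero x₀ h1
  apply hnt N hN
  rw [← Point.toClass_eq_zero, map_nsmul, Point.toClass_some]
  have h1 : (((CoordinateRing.XYIdeal' (W := (WC κ).toAffine) h) ^ N :
      (FractionalIdeal (nonZeroDivisors (RC κ)) (WC κ).toAffine.FunctionField)ˣ) :
      FractionalIdeal (nonZeroDivisors (RC κ)) (WC κ).toAffine.FunctionField)
      = ((Ideal.span {G} : Ideal (RC κ)) :
        FractionalIdeal (nonZeroDivisors (RC κ)) (WC κ).toAffine.FunctionField) := by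
    rw [Units.val_pow_eq_pow_val, CoordinateRing.XYIdeal'_eq, ← hG, FractionalIdeal.coeIdeal_pow]
  have h2 := (ClassGroup.mk_eq_one_of_coe_ideal h1).2 ⟨G, hG0, rfl⟩
  rw [map_pow] at h2
  exact h2

end

section cover

lemma root_pow' {R : Type*} [CommRing R] (t : R) (k : ℕ) :
    AdjoinRoot.root (X ^ k - C t : R[X]) ^ k = algebraMap R (AdjoinRoot (X ^ k - C t : R[X])) t := by
  have h : (X ^ k - C t : R[X]).eval₂ (AdjoinRoot.of (X ^ k - C t : R[X]))
      (AdjoinRoot.root (X ^ k - C t : R[X])) = 0 := AdjoinRoot.eval₂_root _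
  rw [eval₂_sub, eval₂_X_pow, eval₂_C, sub_eq_zero] at h
  exact h

/-- `f` is the polynomial of a curve covering `y² = x³ + κ` through `X = c₁ x^k`, `Y = c₂ y`; a
point of infinite order downstairs gives positive rank upstairs. -/
theorem posRank_of_cover {κ : ℚ} (k : ℕ) (hk : k ≠ 0) {c₁ c₂ : ℚ} (hc₁ : c₁ ≠ 0) (hc₂ : c₂ ≠ 0)
    {f : ℚ[X]} (hodd : Odd f.natDegree)
    (hf : C (c₂ ^ 2) * f = C (c₁ ^ 3) * X ^ (3 * k) + C κ)
    {x₀ y₀ : ℚ} (hP : y₀ ^ 2 = x₀ ^ 3 + κ) (hy₀ : y₀ ≠ 0)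
    (hnt : ∀ n : ℕ, n ≠ 0 →
      n • (Point.some x₀ y₀ (nonsingular_WC hP hy₀) : (WC κ).toAffine.Point) ≠ 0) :
    PosRank f := by
  have := isDomain_coordRing hodd
  refine ⟨isDomain_coordRing hodd, ?_⟩
  -- the ideals upstairs
  let mkA : ℚ[X][X] →+* CoordRing f := AdjoinRoot.mk _
  have hy2 : mkA X ^ 2 = mkA (C f) := by
    have h : mkA (X ^ 2 - C f) = 0 := AdjoinRoot.mk_self
    rwa [map_sub, map_pow, sub_eq_zero] at h
  let U : CoordRing f := mkA (C (C c₁ * X ^ k - C x₀))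
  let V₁ : CoordRing f := mkA (C (C c₂)) * mkA X - mkA (C (C y₀))
  let V₂ : CoordRing f := mkA (C (C c₂)) * mkA X + mkA (C (C y₀))
  have hU : U ≠ 0 := by
    apply AdjoinRoot.mk_ne_zero_of_natDegree_lt (monic_aux f)
    · rw [Ne, C_eq_zero]
      intro h0
      have := congrArg (fun p => p.coeff k) h0
      simp only [coeff_sub, coeff_C_mul, coeff_X_pow_self, coeff_C_of_ne_zero hk, coeff_zero] at this
      apply hc₁
      linarith
    · rw [natDegree_C, natDegree_X_pow_sub_C]; norm_num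
  have hunit : IsUnit (V₂ - V₁) := by
    have : V₂ - V₁ = mkA (C (C (2 * y₀))) := by
      rw [two_mul, C_add, C_add, map_add]
      simp only [V₁, V₂]
      ring
    rw [this]
    exact ((IsUnit.mk0 (2 * y₀) (by simpa using hy₀)).map (C.comp C : ℚ →+* ℚ[X][X])).map mkA
  have hV : V₁ * V₂ = U * mkA (C ((C c₁ * X ^ k) ^ 2 + C c₁ * X ^ k * C x₀ + C x₀ ^ 2)) := by
    have h1 : V₁ * V₂ = mkA (C (C (c₂ ^ 2) * f - C (y₀ ^ 2))) := by
      simp only [V₁, V₂, map_sub, map_mul, map_pow]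
      rw [← hy2]
      ring
    rw [h1, hf, hP, ← map_mul, ← C_mul]
    congr 2
    simp only [C_pow, C_add]
    ring
  refine classGroup_of_ideals (Ideal.span {U, V₁}) (Ideal.span {U, V₂}) U hU
    (span_pair_mul_eq hV hunit) fun n hn g h hg hh => ?_
  -- the free extension of the coordinate ring downstairs
  let q : (RC κ)[X] := X ^ k - C (algebraMap ℚ (RC κ) c₁⁻¹ * xR κ)
  have hq : q.Monic := monic_X_pow_sub_C _ hk
  let S := AdjoinRoot q
  have hroot : (AdjoinRoot.root q : S) ^ k = algebraMap (RC κ) S (algebraMap ℚ (RC κ) c₁⁻¹ * xR κ) :=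
    root_pow' _ _
  let i : ℚ[X] →+* S := (aeval (AdjoinRoot.root q : S) : ℚ[X] →ₐ[ℚ] S).toRingHom
  have hiC : ∀ r : ℚ, i (C r) = algebraMap (RC κ) S (algebraMap ℚ (RC κ) r) := by
    intro r
    show aeval _ (C r) = _
    rw [aeval_C]
    exact IsScalarTower.algebraMap_apply ℚ (RC κ) S r
  have hiX : i (X ^ k) = algebraMap (RC κ) S (algebraMap ℚ (RC κ) c₁⁻¹ * xR κ) := by
    show aeval _ (X ^ k) = _
    rw [map_pow, aeval_X, hroot]
  have hic : i (C c₁ * X ^ k) = algebraMap (RC κ) S (xR κ) := by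
    rw [map_mul, hiC, hiX, ← map_mul, ← mul_assoc, ← map_mul, mul_inv_cancel₀ hc₁, map_one, one_mul]
  let yS : S := algebraMap (RC κ) S (algebraMap ℚ (RC κ) c₂⁻¹ * yR κ)
  have hcy : algebraMap (RC κ) S (algebraMap ℚ (RC κ) c₂) * yS = algebraMap (RC κ) S (yR κ) := by
    rw [← map_mul, ← mul_assoc, ← map_mul, mul_inv_cancel₀ hc₂, map_one, one_mul]
  have hrel : yS ^ 2 = i f := by
    have hu : IsUnit (algebraMap (RC κ) S (algebraMap ℚ (RC κ) (c₂ ^ 2))) :=
      ((IsUnit.mk0 (c₂ ^ 2) (pow_ne_zero _ hc₂)).map (algebraMap ℚ (RC κ))).map (algebraMap (RC κ) S)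
    apply hu.mul_left_cancel
    have e1 : algebraMap (RC κ) S (algebraMap ℚ (RC κ) (c₂ ^ 2)) * yS ^ 2
        = algebraMap (RC κ) S (yR κ ^ 2) := by
      rw [map_pow, map_pow, ← mul_pow, hcy, map_pow]
    have e2 : algebraMap (RC κ) S (algebraMap ℚ (RC κ) (c₂ ^ 2)) * i f
        = algebraMap (RC κ) S (xR κ ^ 3 + algebraMap ℚ (RC κ) κ) := by
      rw [← hiC, ← map_mul, hf, map_add, hiC κ, map_add]
      congr 1
      rw [show (C (c₁ ^ 3) * X ^ (3 * k) : ℚ[X]) = (C c₁ * X ^ k) ^ 3 by rw [C_pow]; ring, map_pow,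
        hic, map_pow]
    rw [e1, e2, yR_sq]
  let ψ : CoordRing f →+* S := AdjoinRoot.lift i yS (by
    rw [eval₂_sub, eval₂_X_pow, eval₂_C, hrel, sub_self])
  have hψC : ∀ p : ℚ[X], ψ (mkA (C p)) = i p := fun p => AdjoinRoot.lift_of _
  have hψX : ψ (mkA X) = yS := AdjoinRoot.lift_root _
  have hψU : ψ U = algebraMap (RC κ) S (CoordinateRing.XClass (WC κ).toAffine x₀) := by
    rw [hψC, map_sub, hic, hiC, XClass_eq, map_sub]
  have hψV₁ : ψ V₁ = algebraMap (RC κ) S (CoordinateRing.YClass (WC κ).toAffine (C y₀)) := by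
    simp only [V₁]
    rw [map_sub, map_mul, hψC, hψC, hψX, hiC, hiC, hcy, YClass_eq, map_sub]
  have hψV₂ : ψ V₂ = algebraMap (RC κ) S (CoordinateRing.YClass (WC κ).toAffine (C (-y₀))) := by
    simp only [V₂]
    rw [map_add, map_mul, hψC, hψC, hψX, hiC, hiC, hcy, YClass_eq, map_sub, map_neg, map_neg,
      sub_neg_eq_add]
  have hJ₁ : (Ideal.span {U, V₁}).map ψ =
      (CoordinateRing.XYIdeal (WC κ).toAffine x₀ (C y₀)).map (algebraMap (RC κ) S) := by
    rw [Ideal.map_span, Set.image_pair, hψU, hψV₁, CoordinateRing.XYIdeal, Ideal.map_span,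
      Set.image_pair]
  have hJ₂ : (Ideal.span {U, V₂}).map ψ =
      (CoordinateRing.XYIdeal (WC κ).toAffine x₀ (C (-y₀))).map (algebraMap (RC κ) S) := by
    rw [Ideal.map_span, Set.image_pair, hψU, hψV₂, CoordinateRing.XYIdeal, Ideal.map_span,
      Set.image_pair]
  have hg' := congrArg (Ideal.map ψ) hg
  have hh' := congrArg (Ideal.map ψ) hh
  rw [Ideal.map_pow, hJ₁, Ideal.map_span, Set.image_singleton] at hg'
  rw [Ideal.map_pow, hJ₂, Ideal.map_span, Set.image_singleton] at hh'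
  have key := norm_transfer (AdjoinRoot.powerBasis' hq).basis _ _ _ (XYIdeal_mul hP hy₀)
    (XYIdeal_sup hy₀) n _ _ hg' hh'
  refine XYIdeal_pow_not_principal (nonsingular_WC hP hy₀) hnt _ ?_ _ key
  rw [AdjoinRoot.powerBasis'_dim]
  refine mul_ne_zero hn ?_
  show q.natDegree ≠ 0
  rw [show q.natDegree = k from natDegree_X_pow_sub_C]
  exact hk

end cover

end MP241ea1
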