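import Mathlib

/-! A linear functional killing `2 f Q' + f' Q`, `f = x^m + κ`. -/

namespace MP241ea1

open Polynomial Finset

section functional

variable {Z : Type*} [CommRing Z]

/-- the operator `Q ↦ 2 f Q' + f' Q` (that is, `D(yQ)` with `D = 2 y d/dx`) -/
noncomputable def DD (f Q : Z[X]) : Z[X] := 2 * f * derivative Q + derivative f * Q

lemma DD_pow (f β : Z[X]) (j : ℕ) :
    (2 * (j : Z[X]) + 1) * ((f * β ^ 2) ^ j * DD f β) = DD f (f ^ j * β ^ (2 * j + 1)) := by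
  unfold DD
  rcases j with _ | j
  · simp
  · rw [derivative_mul, derivative_pow, derivative_pow]
    simp only [Nat.add_sub_cancel, Nat.cast_add, Nat.cast_mul, Nat.cast_ofNat, Nat.cast_one,
      C_add, C_mul, C_1, map_natCast, map_ofNat]
    have : (2 * (j + 1) + 1 - 1 : ℕ) = 2 * (j + 1) := by omega
    ring

/-- the functional `P ↦ ∑ w_i P_{k₀ + m i}` -/
def Phi (w : ℕ → Z) (k₀ m N : ℕ) (P : Z[X]) : Z := ∑ i ∈ range N, w i * P.coeff (k₀ + m * i)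

lemma Phi_add (w : ℕ → Z) (k₀ m N : ℕ) (P Q : Z[X]) :
    Phi w k₀ m N (P + Q) = Phi w k₀ m N P + Phi w k₀ m N Q := by
  unfold Phi
  rw [← sum_add_distrib]
  exact sum_congr rfl fun i _ => by rw [coeff_add]; ring

lemma Phi_C_mul (w : ℕ → Z) (k₀ m N : ℕ) (c : Z) (P : Z[X]) :
    Phi w k₀ m N (C c * P) = c * Phi w k₀ m N P := by
  unfold Phi
  rw [mul_sum]
  exact sum_congr rfl fun i _ => by rw [coeff_C_mul]; ring

lemma Phi_sum {ι : Type*} (w : ℕ → Z) (k₀ m N : ℕ) (s : Finset ι) (P : ι → Z[X]) :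
    Phi w k₀ m N (∑ j ∈ s, P j) = ∑ j ∈ s, Phi w k₀ m N (P j) := by
  unfold Phi
  rw [sum_comm]
  exact sum_congr rfl fun i _ => by rw [finsetSum_coeff, mul_sum]

lemma coeff_DD_zero {k₀ : ℕ} (hk : 1 ≤ k₀) (κ : Z) (Q : Z[X]) :
    (DD (X ^ (2 * k₀ + 1) + C κ) Q).coeff k₀ = (2 * k₀ + 1 + 1) * κ * Q.coeff (k₀ + 1) := by
  have h : DD (X ^ (2 * k₀ + 1) + C κ) Q = 2 * (derivative Q * X ^ (2 * k₀ + 1)) +
      C (2 * κ) * derivative Q + C (2 * k₀ + 1 : Z) * (Q * X ^ (2 * k₀)) := by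
    unfold DD
    rw [derivative_add, derivative_X_pow, derivative_C]
    simp only [Nat.add_sub_cancel, Nat.cast_add, Nat.cast_mul, Nat.cast_ofNat, Nat.cast_one,
      C_add, C_mul, C_1, map_natCast, map_ofNat]
    ring
  rw [h, coeff_add, coeff_add, coeff_C_mul, coeff_C_mul, ← C_ofNat, coeff_C_mul,
    coeff_mul_X_pow', coeff_mul_X_pow', if_neg (by omega), if_neg (by omega), coeff_derivative]
  ring

lemma coeff_DD_succ {k₀ : ℕ} (κ : Z) (Q : Z[X]) (i : ℕ) :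
    (DD (X ^ (2 * k₀ + 1) + C κ) Q).coeff (k₀ + (2 * k₀ + 1) * (i + 1)) =
      (2 * (2 * k₀ + 1) * (i + 1) + 1) * Q.coeff (k₀ + (2 * k₀ + 1) * i + 1) +
      (2 * (2 * k₀ + 1) * (i + 1) + (2 * k₀ + 1) + 1) * κ *
        Q.coeff (k₀ + (2 * k₀ + 1) * (i + 1) + 1) := by
  have h : DD (X ^ (2 * k₀ + 1) + C κ) Q = 2 * (derivative Q * X ^ (2 * k₀ + 1)) +
      C (2 * κ) * derivative Q + C (2 * k₀ + 1 : Z) * (Q * X ^ (2 * k₀)) := by
    unfold DD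
    rw [derivative_add, derivative_X_pow, derivative_C]
    simp only [Nat.add_sub_cancel, Nat.cast_add, Nat.cast_mul, Nat.cast_ofNat, Nat.cast_one,
      C_add, C_mul, C_1, map_natCast, map_ofNat]
    ring
  have e1 : k₀ + (2 * k₀ + 1) * (i + 1) - (2 * k₀ + 1) = k₀ + (2 * k₀ + 1) * i := by
    rw [mul_add, mul_one]; omega
  have e2 : k₀ + (2 * k₀ + 1) * (i + 1) - 2 * k₀ = k₀ + (2 * k₀ + 1) * i + 1 := by
    rw [mul_add, mul_one]; omega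
  have l1 : 2 * k₀ + 1 ≤ k₀ + (2 * k₀ + 1) * (i + 1) := by nlinarith
  rw [h, coeff_add, coeff_add, coeff_C_mul, coeff_C_mul, ← C_ofNat, coeff_C_mul,
    coeff_mul_X_pow', coeff_mul_X_pow', if_pos l1, if_pos (by omega), coeff_derivative,
    coeff_derivative, e1, e2]
  push_cast
  ring

lemma Phi_DD_aux {k₀ : ℕ} (hk : 1 ≤ k₀) (κ : Z) (w : ℕ → Z)
    (hw : ∀ i : ℕ, (2 * (2 * k₀ + 1) * (i + 1) + 1 : Z) * w (i + 1) =
      -κ * (2 * (2 * k₀ + 1) * i + (2 * k₀ + 1) + 1) * w i) (Q : Z[X]) (N : ℕ) :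
    Phi w k₀ (2 * k₀ + 1) (N + 1) (DD (X ^ (2 * k₀ + 1) + C κ) Q) =
      w N * ((2 * (2 * k₀ + 1) * N + (2 * k₀ + 1) + 1) * κ * Q.coeff (k₀ + (2 * k₀ + 1) * N + 1)) := by
  induction N with
  | zero =>
    unfold Phi
    rw [sum_range_one, mul_zero, add_zero, coeff_DD_zero hk]
    push_cast
    ring
  | succ N ih =>
    have : Phi w k₀ (2 * k₀ + 1) (N + 1 + 1) (DD (X ^ (2 * k₀ + 1) + C κ) Q) =
        Phi w k₀ (2 * k₀ + 1) (N + 1) (DD (X ^ (2 * k₀ + 1) + C κ) Q) +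
        w (N + 1) * (DD (X ^ (2 * k₀ + 1) + C κ) Q).coeff (k₀ + (2 * k₀ + 1) * (N + 1)) := by
      unfold Phi
      rw [sum_range_succ]
    rw [this, ih, coeff_DD_succ]
    have h := hw N
    push_cast
    linear_combination Q.coeff (k₀ + (2 * k₀ + 1) * N + 1) * h

lemma Phi_DD {k₀ : ℕ} (hk : 1 ≤ k₀) (κ : Z) (w : ℕ → Z)
    (hw : ∀ i : ℕ, (2 * (2 * k₀ + 1) * (i + 1) + 1 : Z) * w (i + 1) =
      -κ * (2 * (2 * k₀ + 1) * i + (2 * k₀ + 1) + 1) * w i) (Q : Z[X]) (N : ℕ)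
    (hN : Q.natDegree < N) :
    Phi w k₀ (2 * k₀ + 1) N (DD (X ^ (2 * k₀ + 1) + C κ) Q) = 0 := by
  obtain ⟨N, rfl⟩ : ∃ N', N = N' + 1 := ⟨N - 1, by omega⟩
  rw [Phi_DD_aux hk κ w hw, coeff_eq_zero_of_natDegree_lt]
  · ring
  · nlinarith

end functional

end MP241ea1
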