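import Mathlib

/-! The explicit points: a rational curve family on the cubic surface
`Y² = a² U³ + a³ T³ + a`, with 2-adic and q-adic control. -/

namespace MP241ea1

section poly

variable {R S : Type*} [CommRing R] [CommRing S]

def n1 (H ν : R) : R := -1 - 20 * H + 8 * H ^ 2 - 8 * (1 + H) ^ 2 * ν
def N1 (H ν : R) : R := n1 H ν ^ 2 - 108 * (1 + H) * (1 + 4 * H) ^ 2 * ν
def G1 (H ν : R) : R := N1 H ν + 27 * (1 + 4 * H) ^ 3 * ν
def M1 (H ν : R) : R := 9 * (1 + 4 * H) ^ 2 * (1 - 8 * H - 4 * (1 + H) * ν) - N1 H ν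
def K1 (H ν : R) : R := 243 * (1 + 4 * H) ^ 4 * ν - n1 H ν * N1 H ν

lemma main_identity (H ν : R) :
    (1 - ν) * K1 H ν ^ 2 = 46656 * ν * H * (1 - ν) ^ 3 * (1 + H) ^ 3 * (1 + 4 * H) ^ 6 +
      G1 H ν ^ 3 + ν * M1 H ν ^ 3 := by
  unfold K1 G1 M1 N1 n1
  ring

end poly

/-- `p`-integral rational numbers -/
def Sp (p : ℕ) [hp : Fact p.Prime] : Subring ℚ where
  carrier := {x | padicNorm p x ≤ 1}
  mul_mem' := by
    intro a b ha hb
    simp only [Set.mem_ofPred_eq] at *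
    rw [padicNorm.mul]
    exact mul_le_one₀ ha (padicNorm.nonneg _) hb
  one_mem' := by simp
  add_mem' := by
    intro a b ha hb
    exact padicNorm.nonarchimedean.trans (max_le ha hb)
  zero_mem' := by simp
  neg_mem' := by
    intro a ha
    simpa [padicNorm.neg] using ha

lemma mem_Sp {p : ℕ} [Fact p.Prime] {x : ℚ} : x ∈ Sp p ↔ padicNorm p x ≤ 1 := Iff.rfl

lemma padicValRat_eq_zero_of_norm {p : ℕ} [hp : Fact p.Prime] {x : ℚ} (h : padicNorm p x = 1) :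
    x ≠ 0 ∧ padicValRat p x = 0 := by
  have hx : x ≠ 0 := by rintro rfl; simp at h
  refine ⟨hx, ?_⟩
  rw [padicNorm.eq_zpow_of_nonzero hx] at h
  have hp1 : (1 : ℚ) < p := by exact_mod_cast hp.out.one_lt
  have := (zpow_eq_one_iff_right₀ (by linarith) (by linarith : (p : ℚ) ≠ 1)).1 h
  linarith

lemma unit_of {p : ℕ} [hp : Fact p.Prime] {x : Sp p} {c : ℤ} (hc : ¬ (p : ℤ) ∣ c)
    (hx : (p : Sp p) ∣ x - c) : (x : ℚ) ≠ 0 ∧ padicValRat p (x : ℚ) = 0 := by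
  apply padicValRat_eq_zero_of_norm
  obtain ⟨e, he⟩ := hx
  have h1 : (x : ℚ) = c + p * (e : ℚ) := by
    have h := congrArg (Sp p).subtype he
    rw [map_sub, map_intCast, map_mul, map_natCast] at h
    simp only [Subring.subtype_apply] at h
    linarith
  have hc1 : padicNorm p (c : ℚ) = 1 := (padicNorm.int_eq_one_iff c).2 hc
  have he1 : padicNorm p ((p : ℚ) * e) < 1 := by
    rw [padicNorm.mul, padicNorm.padicNorm_p_of_prime]
    have h2 : padicNorm p (e : ℚ) ≤ 1 := e.2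
    have hp1 : (1 : ℚ) < p := by exact_mod_cast hp.out.one_lt
    have : (p : ℚ)⁻¹ < 1 := inv_lt_one_of_one_lt₀ hp1
    calc (p : ℚ)⁻¹ * padicNorm p (e : ℚ) ≤ (p : ℚ)⁻¹ * 1 := by gcongr
      _ < 1 := by linarith
  rw [h1, padicNorm.add_eq_max_of_ne (by rw [hc1]; exact he1.ne'), hc1]
  exact max_eq_left he1.le

lemma exists_mul_of_le {p : ℕ} [hp : Fact p.Prime] {x : ℚ} {n : ℕ} (h : (n : ℤ) ≤ padicValRat p x) :
    ∃ e : Sp p, x = (p : ℚ) ^ n * e := by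
  have hp0 : (p : ℚ) ≠ 0 := by exact_mod_cast hp.out.ne_zero
  by_cases hx : x = 0
  · exact ⟨0, by simp [hx]⟩
  refine ⟨⟨x / p ^ n, ?_⟩, by field_simp⟩
  have hp1 : (1 : ℚ) < p := by exact_mod_cast hp.out.one_lt
  rw [mem_Sp, padicNorm.eq_zpow_of_nonzero (div_ne_zero hx (pow_ne_zero _ hp0)),
    padicValRat.div hx (pow_ne_zero _ hp0), padicValRat.pow, padicValRat.self hp.out.one_lt]
  apply zpow_le_one_of_nonpos₀ hp1.le
  simp only [mul_one]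
  omega


section two

variable (H ν : Sp 2)

lemma two_dvd_n1 : (16 : Sp 2) ∣ n1 (16 * H) (16 * ν) + 1 :=
  ⟨-20 * H + 128 * H ^ 2 - 8 * (1 + 16 * H) ^ 2 * ν, by unfold n1; ring⟩

lemma two_dvd_N1 : (16 : Sp 2) ∣ N1 (16 * H) (16 * ν) - 1 := by
  obtain ⟨e, he⟩ := two_dvd_n1 H ν
  have h : n1 (16 * H) (16 * ν) = 16 * e - 1 := by rw [← he]; ring
  exact ⟨16 * e ^ 2 - 2 * e - 108 * (1 + 16 * H) * (1 + 4 * (16 * H)) ^ 2 * ν, by
    unfold N1; rw [h]; ring⟩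

lemma two_dvd_G1 : (16 : Sp 2) ∣ G1 (16 * H) (16 * ν) - 1 := by
  obtain ⟨e, he⟩ := two_dvd_N1 H ν
  have h : N1 (16 * H) (16 * ν) = 16 * e + 1 := by rw [← he]; ring
  exact ⟨e + 27 * (1 + 4 * (16 * H)) ^ 3 * ν, by unfold G1; rw [h]; ring⟩

lemma two_dvd_M1 : ∃ e : Sp 2, M1 (16 * H) (16 * ν) = 8 * (1 + 2 * e) := by
  obtain ⟨e, he⟩ := two_dvd_N1 H ν
  have h : N1 (16 * H) (16 * ν) = 16 * e + 1 := by rw [← he]; ring
  exact ⟨9 * (1 + 4 * (16 * H)) ^ 2 * (- 8 * H - 4 * (1 + 16 * H) * ν) - e +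
    9 * (8 * H + 256 * H ^ 2), by unfold M1; rw [h]; ring⟩

lemma two_dvd_K1 : (16 : Sp 2) ∣ K1 (16 * H) (16 * ν) - 1 := by
  obtain ⟨e, he⟩ := two_dvd_N1 H ν
  have h : N1 (16 * H) (16 * ν) = 16 * e + 1 := by rw [← he]; ring
  obtain ⟨e', he'⟩ := two_dvd_n1 H ν
  have h' : n1 (16 * H) (16 * ν) = 16 * e' - 1 := by rw [← he']; ring
  exact ⟨243 * (1 + 4 * (16 * H)) ^ 4 * ν - 16 * e' * e - e' + e, by unfold K1; rw [h, h']; ring⟩

end two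

section maps

variable {R S : Type*} [CommRing R] [CommRing S] (φ : R →+* S)

lemma map_n1 (H ν : R) : φ (n1 H ν) = n1 (φ H) (φ ν) := by
  simp only [n1, map_sub, map_add, map_mul, map_pow, map_neg, map_one, map_ofNat]

lemma map_N1 (H ν : R) : φ (N1 H ν) = N1 (φ H) (φ ν) := by
  simp only [N1, map_n1, map_sub, map_add, map_mul, map_pow, map_neg, map_one, map_ofNat]

lemma map_G1 (H ν : R) : φ (G1 H ν) = G1 (φ H) (φ ν) := by
  simp only [G1, map_N1, map_sub, map_add, map_mul, map_pow, map_neg, map_one, map_ofNat]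

lemma map_M1 (H ν : R) : φ (M1 H ν) = M1 (φ H) (φ ν) := by
  simp only [M1, map_N1, map_sub, map_add, map_mul, map_pow, map_neg, map_one, map_ofNat]

lemma map_K1 (H ν : R) : φ (K1 H ν) = K1 (φ H) (φ ν) := by
  simp only [K1, map_n1, map_N1, map_sub, map_add, map_mul, map_pow, map_neg, map_one, map_ofNat]

end maps

lemma coe_M1 {p : ℕ} [Fact p.Prime] (H ν : Sp p) :
    ((M1 H ν : Sp p) : ℚ) = M1 (H : ℚ) (ν : ℚ) := map_M1 (Sp p).subtype H ν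

lemma coe_G1 {p : ℕ} [Fact p.Prime] (H ν : Sp p) :
    ((G1 H ν : Sp p) : ℚ) = G1 (H : ℚ) (ν : ℚ) := map_G1 (Sp p).subtype H ν

lemma coe_K1 {p : ℕ} [Fact p.Prime] (H ν : Sp p) :
    ((K1 H ν : Sp p) : ℚ) = K1 (H : ℚ) (ν : ℚ) := map_K1 (Sp p).subtype H ν

lemma coe_ofNat {p : ℕ} [Fact p.Prime] (n : ℕ) [n.AtLeastTwo] :
    ((OfNat.ofNat n : Sp p) : ℚ) = OfNat.ofNat n := map_ofNat (Sp p).subtype n

instance : Fact (Nat.Prime 2) := ⟨Nat.prime_two⟩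

lemma val_two_pow (n : ℕ) : padicValRat 2 ((2 : ℚ) ^ n) = n := by
  have : padicValRat 2 (2 : ℚ) = 1 := by exact_mod_cast padicValRat.self (p := 2) (by norm_num)
  rw [padicValRat.pow, this, mul_one]

/-- 2-adic information -/
lemma vals_two {H ν : ℚ} (hH : 4 ≤ padicValRat 2 H) (hν : 4 ≤ padicValRat 2 ν) :
    (G1 H ν ≠ 0 ∧ padicValRat 2 (G1 H ν) = 0) ∧ (M1 H ν ≠ 0 ∧ padicValRat 2 (M1 H ν) = 3) ∧
    (K1 H ν ≠ 0) ∧ (1 + H ≠ 0 ∧ padicValRat 2 (1 + H) = 0) ∧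
    (1 + 4 * H ≠ 0 ∧ padicValRat 2 (1 + 4 * H) = 0) ∧
    (1 - ν ≠ 0 ∧ padicValRat 2 (1 - ν) = 0) := by
  obtain ⟨H', hH'⟩ := exists_mul_of_le (p := 2) (n := 4) (x := H) (by exact_mod_cast hH)
  obtain ⟨ν', hν'⟩ := exists_mul_of_le (p := 2) (n := 4) (x := ν) (by exact_mod_cast hν)
  have e1 : ((16 * H' : Sp 2) : ℚ) = H := by
    rw [hH', Subring.coe_mul, coe_ofNat]; norm_num
  have e2 : ((16 * ν' : Sp 2) : ℚ) = ν := by
    rw [hν', Subring.coe_mul, coe_ofNat]; norm_num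
  have h2 : ∀ x : Sp 2, (16 : Sp 2) ∣ x - 1 → (x : ℚ) ≠ 0 ∧ padicValRat 2 (x : ℚ) = 0 := by
    intro x hx
    refine unit_of (c := 1) (by norm_num) ?_
    rw [Int.cast_one]
    exact dvd_trans ⟨8, by norm_num⟩ hx
  refine ⟨?_, ?_, ?_, ?_, ?_, ?_⟩
  · have := h2 _ (two_dvd_G1 H' ν')
    rwa [coe_G1, e1, e2] at this
  · obtain ⟨e, he⟩ := two_dvd_M1 H' ν'
    have h3 := congrArg (Sp 2).subtype he
    rw [Subring.subtype_apply, coe_M1, e1, e2, map_mul] at h3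
    have h4 : ((1 + 2 * e : Sp 2) : ℚ) ≠ 0 ∧ padicValRat 2 ((1 + 2 * e : Sp 2) : ℚ) = 0 := by
      refine unit_of (c := 1) (by norm_num) ⟨e, ?_⟩
      push_cast; ring
    have h5 : (Sp 2).subtype 8 = (2 : ℚ) ^ 3 := by
      rw [map_ofNat]; norm_num
    rw [h5, Subring.subtype_apply] at h3
    rw [h3]
    refine ⟨mul_ne_zero (by norm_num) h4.1, ?_⟩
    rw [padicValRat.mul (by norm_num) h4.1, h4.2, val_two_pow]
    norm_num
  · have := (h2 _ (two_dvd_K1 H' ν')).1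
    rwa [coe_K1, e1, e2] at this
  · have := h2 (1 + 16 * H') ⟨H', by ring⟩
    rwa [Subring.coe_add, e1, Subring.coe_one] at this
  · have := h2 (1 + 4 * (16 * H')) ⟨4 * H', by ring⟩
    rwa [Subring.coe_add, Subring.coe_mul, e1, Subring.coe_one, coe_ofNat] at this
  · have := h2 (1 - 16 * ν') ⟨-ν', by ring⟩
    rwa [AddSubgroupClass.coe_sub, e2, Subring.coe_one] at this

section homog

variable {R S : Type*} [CommRing R] [CommRing S]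

def n1h (H w : R) : R := (-1 - 20 * H + 8 * H ^ 2) * w - 8 * (1 + H) ^ 2
def N1h (H w : R) : R := n1h H w ^ 2 - 108 * (1 + H) * (1 + 4 * H) ^ 2 * w
def G1h (H w : R) : R := N1h H w + 27 * (1 + 4 * H) ^ 3 * w
def M1h (H w : R) : R :=
  9 * (1 + 4 * H) ^ 2 * ((1 - 8 * H) * w ^ 2 - 4 * (1 + H) * w) - N1h H w

variable (φ : R →+* S)

lemma map_G1h (H ν : R) : φ (G1h H ν) = G1h (φ H) (φ ν) := by
  simp only [G1h, N1h, n1h, map_sub, map_add, map_mul, map_pow, map_neg, map_one, map_ofNat]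

lemma map_M1h (H ν : R) : φ (M1h H ν) = M1h (φ H) (φ ν) := by
  simp only [M1h, N1h, n1h, map_sub, map_add, map_mul, map_pow, map_neg, map_one, map_ofNat]

end homog

lemma G1_homog {H ν : ℚ} (hν : ν ≠ 0) : G1 H ν = ν ^ 2 * G1h H ν⁻¹ := by
  unfold G1 N1 n1 G1h N1h n1h
  field_simp

lemma M1_homog {H ν : ℚ} (hν : ν ≠ 0) : M1 H ν = ν ^ 2 * M1h H ν⁻¹ := by
  unfold M1 N1 n1 M1h N1h n1h
  field_simp

lemma dvd_N1h {R : Type*} [CommRing R] (q H w : R) : q ∣ N1h (q * H) (q * w) - 64 := by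
  unfold N1h n1h
  have : ((-1 - 20 * (q * H) + 8 * (q * H) ^ 2) * (q * w) - 8 * (1 + q * H) ^ 2) ^ 2 -
      108 * (1 + q * H) * (1 + 4 * (q * H)) ^ 2 * (q * w) - 64 =
      q * (((-1 - 20 * (q * H) + 8 * (q * H) ^ 2) * w - 16 * H - 8 * q * H ^ 2) *
        ((-1 - 20 * (q * H) + 8 * (q * H) ^ 2) * (q * w) - 8 * (1 + q * H) ^ 2 - 8) -
        108 * (1 + q * H) * (1 + 4 * (q * H)) ^ 2 * w) := by ring
  rw [this]
  exact dvd_mul_right _ _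

lemma dvd_G1h {R : Type*} [CommRing R] (q H w : R) : q ∣ G1h (q * H) (q * w) - 64 := by
  unfold G1h
  have : N1h (q * H) (q * w) + 27 * (1 + 4 * (q * H)) ^ 3 * (q * w) - 64 =
    (N1h (q * H) (q * w) - 64) + q * (27 * (1 + 4 * (q * H)) ^ 3 * w) := by ring
  rw [this]
  exact dvd_add (dvd_N1h q H w) (dvd_mul_right _ _)

lemma dvd_M1h {R : Type*} [CommRing R] (q H w : R) : q ∣ M1h (q * H) (q * w) + 64 := by
  unfold M1h
  have : 9 * (1 + 4 * (q * H)) ^ 2 * ((1 - 8 * (q * H)) * (q * w) ^ 2 -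
      4 * (1 + q * H) * (q * w)) - N1h (q * H) (q * w) + 64 =
      q * (9 * (1 + 4 * (q * H)) ^ 2 * ((1 - 8 * (q * H)) * (q * w) * w -
      4 * (1 + q * H) * w)) - (N1h (q * H) (q * w) - 64) := by ring
  rw [this]
  exact dvd_sub (dvd_mul_right _ _) (dvd_N1h q H w)

/-- q-adic information -/
lemma vals_q {q : ℕ} [hq : Fact q.Prime] (hq2 : q ≠ 2) {H ν : ℚ} (hν0 : ν ≠ 0)
    (hH : 1 ≤ padicValRat q H) (hν : padicValRat q ν ≤ -1) :
    (G1 H ν ≠ 0 ∧ padicValRat q (G1 H ν) = 2 * padicValRat q ν) ∧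
    (M1 H ν ≠ 0 ∧ padicValRat q (M1 H ν) = 2 * padicValRat q ν) := by
  obtain ⟨H', hH'⟩ := exists_mul_of_le (p := q) (n := 1) (x := H) (by exact_mod_cast hH)
  obtain ⟨w', hw'⟩ := exists_mul_of_le (p := q) (n := 1) (x := ν⁻¹) (by
    rw [padicValRat.inv]; push_cast; linarith)
  have e1 : (((q : Sp q) * H' : Sp q) : ℚ) = H := by
    rw [hH', Subring.coe_mul, Subring.coe_natCast, pow_one]
  have e2 : (((q : Sp q) * w' : Sp q) : ℚ) = ν⁻¹ := by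
    rw [hw', Subring.coe_mul, Subring.coe_natCast, pow_one]
  have h64 : ¬ (q : ℤ) ∣ 64 := by
    intro h
    have h' : q ∣ 2 ^ 6 := by
      have : (q : ℤ) ∣ ((2 ^ 6 : ℕ) : ℤ) := by push_cast; norm_num; exact h
      exact_mod_cast this
    exact hq2 ((Nat.prime_dvd_prime_iff_eq hq.out Nat.prime_two).1 (hq.out.dvd_of_dvd_pow h'))
  have hG : G1h H ν⁻¹ ≠ 0 ∧ padicValRat q (G1h H ν⁻¹) = 0 := by
    have := unit_of (p := q) (x := G1h ((q : Sp q) * H') ((q : Sp q) * w')) (c := 64) h64 (by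
      have := dvd_G1h (q : Sp q) H' w'
      simpa using this)
    have e : ((G1h ((q : Sp q) * H') ((q : Sp q) * w') : Sp q) : ℚ) = G1h H ν⁻¹ := by
      have := map_G1h (Sp q).subtype ((q : Sp q) * H') ((q : Sp q) * w')
      rw [Subring.subtype_apply, Subring.subtype_apply, Subring.subtype_apply, e1, e2] at this
      exact this
    rwa [e] at this
  have hM : M1h H ν⁻¹ ≠ 0 ∧ padicValRat q (M1h H ν⁻¹) = 0 := by
    have := unit_of (p := q) (x := M1h ((q : Sp q) * H') ((q : Sp q) * w')) (c := -64) (by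
      rw [Int.dvd_neg]; exact h64) (by
      have := dvd_M1h (q : Sp q) H' w'
      simpa using this)
    have e : ((M1h ((q : Sp q) * H') ((q : Sp q) * w') : Sp q) : ℚ) = M1h H ν⁻¹ := by
      have := map_M1h (Sp q).subtype ((q : Sp q) * H') ((q : Sp q) * w')
      rw [Subring.subtype_apply, Subring.subtype_apply, Subring.subtype_apply, e1, e2] at this
      exact this
    rwa [e] at this
  constructor
  · rw [G1_homog hν0]
    refine ⟨mul_ne_zero (pow_ne_zero _ hν0) hG.1, ?_⟩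
    rw [padicValRat.mul (pow_ne_zero _ hν0) hG.1, padicValRat.pow, hG.2]
    push_cast; ring
  · rw [M1_homog hν0]
    refine ⟨mul_ne_zero (pow_ne_zero _ hν0) hM.1, ?_⟩
    rw [padicValRat.mul (pow_ne_zero _ hν0) hM.1, padicValRat.pow, hM.2]
    push_cast; ring

lemma one_add_unit {p : ℕ} [hp : Fact p.Prime] {x : ℚ} (hx : 1 ≤ padicValRat p x) :
    1 + x ≠ 0 ∧ padicValRat p (1 + x) = 0 := by
  obtain ⟨e, he⟩ := exists_mul_of_le (p := p) (n := 1) (x := x) (by exact_mod_cast hx)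
  have h := unit_of (p := p) (x := 1 + (p : Sp p) * e) (c := 1)
    (fun h => hp.out.one_lt.ne' (by exact_mod_cast Int.eq_one_of_dvd_one (by positivity) h))
    (by simp)
  have : (((1 : Sp p) + (p : Sp p) * e : Sp p) : ℚ) = 1 + x := by
    rw [Subring.coe_add, Subring.coe_mul, Subring.coe_natCast, he, Subring.coe_one, pow_one]
  rwa [this] at h

lemma point_identity {a H ν U τ : ℚ} (ha : a ≠ 0) (hH : H ≠ 0) (hν : ν ≠ 0) (hU : U ≠ 0)
    (hτ : τ ≠ 0) (h1 : 1 + H ≠ 0) (h4 : 1 + 4 * H ≠ 0) (hn : 1 - ν ≠ 0) (hG : G1 H ν ≠ 0)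
    (hUH : a * U ^ 3 * H = 1) (hντ : ν * H ^ 3 = a ^ 5 * τ ^ 6 * (1 + H) ^ 3) {u X Y s : ℚ}
    (hu : u = a ^ 2 * τ ^ 2 * ((1 + H) / H) * (M1 H ν / G1 H ν))
    (hs : s = ν * (M1 H ν / G1 H ν) ^ 3)
    (hX : X = G1 H ν * U * H / (36 * a ^ 2 * τ ^ 2 * (1 - ν) * (1 + H) ^ 2 * (1 + 4 * H) ^ 2))
    (hY : Y = K1 H ν * U ^ 6 * H ^ 3 / (216 * τ ^ 3 * (1 + H) ^ 3 * (1 - ν) * (1 + 4 * H) ^ 3)) :
    u ^ 3 / a = s ∧
    a ^ 2 * (u ^ 3 + a) = a ^ 3 * (1 + s) ∧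
    X ^ 3 = G1 H ν ^ 3 /
      (46656 * a ^ 2 * ν * H * (1 - ν) ^ 3 * (1 + H) ^ 3 * (1 + 4 * H) ^ 6) ∧
    Y ^ 2 = a ^ 2 * (u ^ 3 + a) * X ^ 3 + a := by
  have hτ6 : τ ^ 6 = ν * H ^ 3 / (a ^ 5 * (1 + H) ^ 3) := by
    field_simp
    linarith
  have hU3 : U ^ 3 = 1 / (a * H) := by
    field_simp
    linarith
  have e1 : u ^ 3 / a = s := by
    have : u ^ 3 = a ^ 6 * τ ^ 6 * ((1 + H) / H) ^ 3 * (M1 H ν / G1 H ν) ^ 3 := by
      rw [hu]; ring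
    rw [this, hτ6, hs]
    field_simp
  have e2 : a ^ 2 * (u ^ 3 + a) = a ^ 3 * (1 + s) := by
    rw [← e1]; field_simp; ring
  have e3 : X ^ 3 = G1 H ν ^ 3 /
      (46656 * a ^ 2 * ν * H * (1 - ν) ^ 3 * (1 + H) ^ 3 * (1 + 4 * H) ^ 6) := by
    have : X ^ 3 = G1 H ν ^ 3 * U ^ 3 * H ^ 3 /
        (46656 * a ^ 6 * τ ^ 6 * (1 - ν) ^ 3 * (1 + H) ^ 6 * (1 + 4 * H) ^ 6) := by
      rw [hX]; field_simp; ring
    rw [this, hU3, hτ6]
    field_simp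
  have e4 : Y ^ 2 = a * K1 H ν ^ 2 /
      (46656 * ν * H * (1 - ν) ^ 2 * (1 + H) ^ 3 * (1 + 4 * H) ^ 6) := by
    have : Y ^ 2 = K1 H ν ^ 2 * (U ^ 3) ^ 4 * H ^ 6 /
        (46656 * τ ^ 6 * (1 + H) ^ 6 * (1 - ν) ^ 2 * (1 + 4 * H) ^ 6) := by
      rw [hY]; field_simp; ring
    rw [this, hU3, hτ6]
    field_simp
  refine ⟨e1, e2, e3, ?_⟩
  rw [e2, e3, e4, hs]
  have hid := main_identity H ν
  have hK : K1 H ν ^ 2 = (46656 * ν * H * (1 - ν) ^ 3 * (1 + H) ^ 3 * (1 + 4 * H) ^ 6 +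
      G1 H ν ^ 3 + ν * M1 H ν ^ 3) / (1 - ν) := by
    rw [← hid]; field_simp
  rw [hK]
  generalize G1 H ν = G at *
  generalize M1 H ν = M at *
  obtain ⟨D, hD⟩ : ∃ D, D = 46656 * ν * H * (1 + H) ^ 3 * (1 + 4 * H) ^ 6 := ⟨_, rfl⟩
  have hD0 : D ≠ 0 := by
    rw [hD]
    have := pow_ne_zero 3 h1
    have := pow_ne_zero 6 h4
    positivity
  have r1 : 46656 * ν * H * (1 - ν) ^ 2 * (1 + H) ^ 3 * (1 + 4 * H) ^ 6 = D * (1 - ν) ^ 2 := by
    rw [hD]; ring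
  have r2 : 46656 * a ^ 2 * ν * H * (1 - ν) ^ 3 * (1 + H) ^ 3 * (1 + 4 * H) ^ 6 =
      a ^ 2 * (D * (1 - ν) ^ 3) := by
    rw [hD]; ring
  have r3 : 46656 * ν * H * (1 - ν) ^ 3 * (1 + H) ^ 3 * (1 + 4 * H) ^ 6 = D * (1 - ν) ^ 3 := by
    rw [hD]; ring
  rw [r1, r2, r3]
  field_simp
  ring

lemma val_prime_ne {p q : ℕ} [hp : Fact p.Prime] [hq : Fact q.Prime] (h : p ≠ q) :
    padicValRat p (q : ℚ) = 0 := by
  rw [padicValRat.of_nat, padicValNat_primes h]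
  rfl

lemma val_self (p : ℕ) [hp : Fact p.Prime] : padicValRat p (p : ℚ) = 1 :=
  padicValRat.self hp.out.one_lt

lemma val_46656 : padicValRat 2 (46656 : ℚ) = 6 := by
  have h : (46656 : ℚ) = ((2 : ℕ) : ℚ) ^ 6 * ((3 : ℕ) : ℚ) ^ 6 := by norm_num
  have : Fact (Nat.Prime 3) := ⟨Nat.prime_three⟩
  rw [h, padicValRat.mul (by norm_num) (by norm_num), padicValRat.pow, padicValRat.pow,
    val_self 2, val_prime_ne (p := 2) (q := 3) (by norm_num)]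
  norm_num

/-- The explicit points with their 2-adic and q-adic control. -/
theorem exists_params {a : ℚ} (ha : a ≠ 0) {q : ℕ} [hq : Fact q.Prime] (hq2 : q ≠ 2)
    (hqa : padicValRat q a = 0) :
    ∃ d u X Y : ℚ, u ≠ 0 ∧ X ≠ 0 ∧ d ≠ 0 ∧ d = a ^ 2 * (u ^ 3 + a) ∧ Y ^ 2 = d * X ^ 3 + a ∧
      padicValRat q d = -3 ∧ 4 ≤ padicValRat 2 (u ^ 3 / a) ∧
      padicValRat 2 (d * X ^ 3 / a) < 0 := by
  obtain ⟨α, hα⟩ : ∃ α, α = padicValRat 2 a := ⟨_, rfl⟩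
  let A : ℕ := (α + 4).toNat
  have hA : α + 4 ≤ 3 * (A : ℤ) := by
    have : α + 4 ≤ (A : ℤ) := Int.self_le_toNat _
    omega
  let B : ℕ := (9 * (A : ℤ) - 8 * α + 4).toNat
  have hB : 4 ≤ 8 * α + 6 * (B : ℤ) - 9 * A := by
    have : 9 * (A : ℤ) - 8 * α + 4 ≤ (B : ℤ) := Int.self_le_toNat _
    omega
  have hq0 : (q : ℚ) ≠ 0 := by exact_mod_cast hq.out.ne_zero
  have h20 : ((2 : ℕ) : ℚ) ≠ 0 := by norm_num
  have v2q : padicValRat 2 (q : ℚ) = 0 := val_prime_ne (Ne.symm hq2)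
  have vq2 : padicValRat q ((2 : ℕ) : ℚ) = 0 := val_prime_ne hq2
  have v22 : padicValRat 2 ((2 : ℕ) : ℚ) = 1 := val_self 2
  have vqq : padicValRat q (q : ℚ) = 1 := val_self q
  obtain ⟨U, hU⟩ : ∃ U : ℚ, U = 1 / (((2 : ℕ) : ℚ) ^ A * q) := ⟨_, rfl⟩
  obtain ⟨H, hH⟩ : ∃ H : ℚ, H = (((2 : ℕ) : ℚ) ^ A * q) ^ 3 / a := ⟨_, rfl⟩
  obtain ⟨τ, hτ⟩ : ∃ τ : ℚ, τ = ((2 : ℕ) : ℚ) ^ B * q := ⟨_, rfl⟩
  obtain ⟨ν, hν⟩ : ∃ ν : ℚ, ν = a ^ 5 * τ ^ 6 * (1 + H) ^ 3 / H ^ 3 := ⟨_, rfl⟩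
  have h2A : (((2 : ℕ) : ℚ) ^ A * q) ≠ 0 := mul_ne_zero (pow_ne_zero _ h20) hq0
  have hU0 : U ≠ 0 := by rw [hU]; exact one_div_ne_zero h2A
  have hH0 : H ≠ 0 := by rw [hH]; exact div_ne_zero (pow_ne_zero _ h2A) ha
  have hτ0 : τ ≠ 0 := by rw [hτ]; exact mul_ne_zero (pow_ne_zero _ h20) hq0
  have hUH : a * U ^ 3 * H = 1 := by
    rw [hU, hH]; field_simp
  have v2H : padicValRat 2 H = 3 * (A : ℤ) - α := by
    rw [hH, padicValRat.div (pow_ne_zero _ h2A) ha, padicValRat.pow,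
      padicValRat.mul (pow_ne_zero _ h20) hq0, padicValRat.pow, v22, v2q, ← hα]
    push_cast; ring
  have vqH : padicValRat q H = 3 := by
    rw [hH, padicValRat.div (pow_ne_zero _ h2A) ha, padicValRat.pow,
      padicValRat.mul (pow_ne_zero _ h20) hq0, padicValRat.pow, vq2, vqq, hqa]
    push_cast; ring
  obtain ⟨h1, v21⟩ := one_add_unit (p := 2) (x := H) (by rw [v2H]; omega)
  have vq1 := (one_add_unit (p := q) (x := H) (by rw [vqH]; norm_num)).2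
  have hν0 : ν ≠ 0 := by
    rw [hν]
    exact div_ne_zero (mul_ne_zero (mul_ne_zero (pow_ne_zero _ ha) (pow_ne_zero _ hτ0))
      (pow_ne_zero _ h1)) (pow_ne_zero _ hH0)
  have hvν : ∀ (p : ℕ) [Fact p.Prime], padicValRat p ν = 5 * padicValRat p a +
      6 * padicValRat p τ + 3 * padicValRat p (1 + H) - 3 * padicValRat p H := by
    intro p _
    rw [hν, padicValRat.div (mul_ne_zero (mul_ne_zero (pow_ne_zero _ ha) (pow_ne_zero _ hτ0))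
      (pow_ne_zero _ h1)) (pow_ne_zero _ hH0), padicValRat.mul (mul_ne_zero (pow_ne_zero _ ha)
      (pow_ne_zero _ hτ0)) (pow_ne_zero _ h1), padicValRat.mul (pow_ne_zero _ ha)
      (pow_ne_zero _ hτ0), padicValRat.pow, padicValRat.pow, padicValRat.pow, padicValRat.pow]
    push_cast; ring
  have v2ν : padicValRat 2 ν = 8 * α + 6 * (B : ℤ) - 9 * A := by
    rw [hvν 2, hτ, padicValRat.mul (pow_ne_zero _ h20) hq0, padicValRat.pow, v22, v2q, v21, v2H,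
      ← hα]
    ring
  have vqν : padicValRat q ν = -3 := by
    rw [hvν q, hτ, padicValRat.mul (pow_ne_zero _ h20) hq0, padicValRat.pow, vq2, vqq, vq1, vqH,
      hqa]
    ring
  obtain ⟨⟨hG, v2G⟩, ⟨hM, v2M⟩, -, -, ⟨h4, v24⟩, ⟨hn, v2n⟩⟩ :=
    vals_two (H := H) (ν := ν) (by rw [v2H]; omega) (by rw [v2ν]; omega)
  obtain ⟨⟨-, vqG⟩, ⟨-, vqM⟩⟩ := vals_q hq2 hν0 (by rw [vqH]; norm_num : 1 ≤ padicValRat q H)
    (by rw [vqν]; norm_num)
  have hMG : M1 H ν / G1 H ν ≠ 0 := div_ne_zero hM hG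
  obtain ⟨s, hs⟩ : ∃ s : ℚ, s = ν * (M1 H ν / G1 H ν) ^ 3 := ⟨_, rfl⟩
  have hs0 : s ≠ 0 := by rw [hs]; exact mul_ne_zero hν0 (pow_ne_zero _ hMG)
  have v2s : padicValRat 2 s = padicValRat 2 ν + 9 := by
    rw [hs, padicValRat.mul hν0 (pow_ne_zero _ hMG), padicValRat.pow, padicValRat.div hM hG, v2M,
      v2G]
    norm_num
  have vqs : padicValRat q s = -3 := by
    rw [hs, padicValRat.mul hν0 (pow_ne_zero _ hMG), padicValRat.pow, padicValRat.div hM hG, vqM,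
      vqG, vqν]
    norm_num
  obtain ⟨h1s, v21s⟩ := one_add_unit (p := 2) (x := s) (by rw [v2s, v2ν]; omega)
  have vq1s : padicValRat q (1 + s) = -3 := by
    rw [add_comm, padicValRat.add_eq_of_lt (by rwa [add_comm]) hs0 one_ne_zero
      (by rw [vqs, padicValRat.one]; norm_num), vqs]
  obtain ⟨e1, e2, e3, e4⟩ := point_identity ha hH0 hν0 hU0 hτ0 h1 h4 hn hG hUH
    (by rw [hν]; field_simp) (rfl : a ^ 2 * τ ^ 2 * ((1 + H) / H) * (M1 H ν / G1 H ν) = _) hs rfl rfl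
  have hD : (46656 * a ^ 2 * ν * H * (1 - ν) ^ 3 * (1 + H) ^ 3 * (1 + 4 * H) ^ 6) ≠ 0 := by
    have := pow_ne_zero 3 hn
    have := pow_ne_zero 3 h1
    have := pow_ne_zero 6 h4
    positivity
  refine ⟨_, _, _, _, ?_, ?_, ?_, rfl, e4, ?_, ?_, ?_⟩
  · intro h0
    rw [h0] at e1
    apply hs0
    rw [← e1]; simp
  · intro h0
    rw [h0] at e3
    have : G1 H ν ^ 3 / (46656 * a ^ 2 * ν * H * (1 - ν) ^ 3 * (1 + H) ^ 3 * (1 + 4 * H) ^ 6) ≠ 0 :=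
      div_ne_zero (pow_ne_zero _ hG) hD
    apply this
    rw [← e3]; simp
  · rw [e2]
    exact mul_ne_zero (pow_ne_zero _ ha) h1s
  · rw [e2, padicValRat.mul (pow_ne_zero _ ha) h1s, padicValRat.pow, hqa, vq1s]
    norm_num
  · rw [e1, v2s, v2ν]; omega
  · rw [e2, e3]
    have : a ^ 3 * (1 + s) * (G1 H ν ^ 3 /
        (46656 * a ^ 2 * ν * H * (1 - ν) ^ 3 * (1 + H) ^ 3 * (1 + 4 * H) ^ 6)) / a =
        (1 + s) * G1 H ν ^ 3 / (46656 * (ν * (H * ((1 - ν) ^ 3 * ((1 + H) ^ 3 *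
          (1 + 4 * H) ^ 6))))) := by
      field_simp
    rw [this, padicValRat.div (mul_ne_zero h1s (pow_ne_zero _ hG))
      (mul_ne_zero (by norm_num) (mul_ne_zero hν0 (mul_ne_zero hH0 (mul_ne_zero (pow_ne_zero _ hn)
      (mul_ne_zero (pow_ne_zero _ h1) (pow_ne_zero _ h4)))))),
      padicValRat.mul h1s (pow_ne_zero _ hG), padicValRat.mul (by norm_num)
      (mul_ne_zero hν0 (mul_ne_zero hH0 (mul_ne_zero (pow_ne_zero _ hn)
      (mul_ne_zero (pow_ne_zero _ h1) (pow_ne_zero _ h4))))),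
      padicValRat.mul hν0 (mul_ne_zero hH0 (mul_ne_zero (pow_ne_zero _ hn)
      (mul_ne_zero (pow_ne_zero _ h1) (pow_ne_zero _ h4)))),
      padicValRat.mul hH0 (mul_ne_zero (pow_ne_zero _ hn)
      (mul_ne_zero (pow_ne_zero _ h1) (pow_ne_zero _ h4))),
      padicValRat.mul (pow_ne_zero _ hn) (mul_ne_zero (pow_ne_zero _ h1) (pow_ne_zero _ h4)),
      padicValRat.mul (pow_ne_zero _ h1) (pow_ne_zero _ h4),
      padicValRat.pow, padicValRat.pow, padicValRat.pow, padicValRat.pow, v21s, v2G, v2n, v21, v24,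
      val_46656, v2ν, v2H]
    push_cast
    omega

end MP241ea1
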