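import Pool.Agent.Helper10.TW.Cover
import Pool.Agent.Helper10.TW.Params

/-! Final assembly: `3 ∣ m`. -/

namespace MP241ea1

open Polynomial WeierstrassCurve WeierstrassCurve.Affine

lemma natDegree_twist (m : ℕ) (c : ℚ) : (X ^ m + C c : ℚ[X]).natDegree = m :=
  natDegree_X_pow_add_C

/-- A point `(x, y)` on `y² = x³ + κ` with the 2-adic condition has infinite order. -/
lemma nontorsion_of_val {κ x y : ℚ} (hκ : κ ≠ 0) (hP : y ^ 2 = x ^ 3 + κ) (hy : y ≠ 0)
    (hx : x ≠ 0) (hv : padicValRat 2 (x ^ 3 / κ) < 0 ∨ 4 ≤ padicValRat 2 (x ^ 3 / κ)) :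
    ∀ n : ℕ, n ≠ 0 →
      n • (Point.some x y (nonsingular_WC hP hy) : (WC κ).toAffine.Point) ≠ 0 :=
  good_nontorsion hκ hv ⟨x, y, nonsingular_WC hP hy, rfl, hx, rfl⟩

theorem admissible_of_params {a : ℚ} (ha : a ≠ 0) {k : ℕ} (hk : Odd k) {d u x y : ℚ}
    (hu : u ≠ 0) (hx : x ≠ 0) (hd : d ≠ 0) (hdu : d = a ^ 2 * (u ^ 3 + a))
    (hxy : y ^ 2 = d * x ^ 3 + a) (h1 : 4 ≤ padicValRat 2 (u ^ 3 / a))
    (h2 : padicValRat 2 (d * x ^ 3 / a) < 0) : Admissible (3 * k) a d := by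
  have hk0 : k ≠ 0 := by rintro rfl; simp at hk
  have hodd : Odd (3 * k) := by
    obtain ⟨j, rfl⟩ := hk
    exact ⟨3 * j + 1, by ring⟩
  have hu3 : u ^ 3 + a ≠ 0 := by
    rintro h0
    apply hd
    rw [hdu, h0, mul_zero]
  refine ⟨?_, ?_, ?_⟩
  · -- `d y² = x^m + a`
    have hP : (d ^ 2 / a) ^ 2 = (d * u) ^ 3 + a * d ^ 3 := by
      have : (d * u) ^ 3 + a * d ^ 3 = d ^ 3 * (u ^ 3 + a) := by ring
      rw [this]
      have : u ^ 3 + a = d / a ^ 2 := by rw [hdu]; field_simp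
      rw [this]
      field_simp
    have hy : d ^ 2 / a ≠ 0 := div_ne_zero (pow_ne_zero _ hd) ha
    refine posRank_of_cover k hk0 hd (pow_ne_zero 2 hd) (f := C d⁻¹ * (X ^ (3 * k) + C a)) ?_ ?_
      hP hy (nontorsion_of_val (mul_ne_zero ha (pow_ne_zero _ hd)) hP hy (mul_ne_zero hd hu) ?_)
    · rw [natDegree_C_mul (inv_ne_zero hd), natDegree_twist]
      exact hodd
    · have h : (C ((d ^ 2) ^ 2) : ℚ[X]) * C d⁻¹ = C (d ^ 3) := by
        rw [← C_mul]
        congr 1
        field_simp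
      rw [← mul_assoc, h, mul_add, ← C_mul]
      congr 2
      ring
    · right
      have : (d * u) ^ 3 / (a * d ^ 3) = u ^ 3 / a := by field_simp
      rw [this]
      exact h1
  · -- `y² = x^m + a d^(m-1)`
    obtain ⟨j, hj⟩ := hk
    have hP : (d * y) ^ 2 = (d * x) ^ 3 + a * d ^ 2 := by
      rw [mul_pow, hxy]; ring
    have hy0 : y ≠ 0 := by
      rintro rfl
      have : d * x ^ 3 / a = -1 := by
        field_simp
        linarith
      rw [this, padicValRat.neg, padicValRat.one] at h2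
      exact lt_irrefl _ h2
    have hy : d * y ≠ 0 := mul_ne_zero hd hy0
    refine posRank_of_cover k hk0 (c₁ := (d ^ (2 * j))⁻¹) (c₂ := (d ^ (3 * j))⁻¹)
      (inv_ne_zero (pow_ne_zero _ hd)) (inv_ne_zero (pow_ne_zero _ hd))
      (f := X ^ (3 * k) + C (a * d ^ (3 * k - 1))) ?_ ?_
      hP hy (nontorsion_of_val (mul_ne_zero ha (pow_ne_zero _ hd)) hP hy (mul_ne_zero hd hx) ?_)
    · rw [natDegree_twist]
      exact hodd
    · rw [mul_add, ← C_mul]
      congr 2
      · congr 1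
        rw [inv_pow, inv_pow, ← pow_mul, ← pow_mul]
        congr 2
        ring
      · have : 3 * k - 1 = 6 * j + 2 := by omega
        rw [this, inv_pow, ← pow_mul, pow_add]
        have e : 3 * j * 2 = 6 * j := by ring
        rw [e]
        have := pow_ne_zero (6 * j) hd
        field_simp
    · left
      have : (d * x) ^ 3 / (a * d ^ 2) = d * x ^ 3 / a := by field_simp
      rw [this]
      exact h2
  · -- `y² = x^m + a d`
    have hP : (a ^ 2) ^ 2 = (-(a * u)) ^ 3 + a * d := by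
      rw [hdu]; ring
    have hy : a ^ 2 ≠ 0 := pow_ne_zero _ ha
    refine posRank_of_cover k hk0 (c₁ := 1) (c₂ := 1) one_ne_zero one_ne_zero
      (f := X ^ (3 * k) + C (a * d)) ?_ ?_
      hP hy (nontorsion_of_val (mul_ne_zero ha hd) hP hy (neg_ne_zero.2 (mul_ne_zero ha hu)) ?_)
    · rw [natDegree_twist]
      exact hodd
    · simp
    · right
      have hs0 : u ^ 3 / a ≠ 0 := div_ne_zero (pow_ne_zero _ hu) ha
      obtain ⟨hs1, hv1⟩ := one_add_unit (p := 2) (x := u ^ 3 / a) (by linarith)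
      have : (-(a * u)) ^ 3 / (a * d) = -((u ^ 3 / a) / (1 + u ^ 3 / a)) := by
        rw [hdu]
        have : 1 + u ^ 3 / a = (u ^ 3 + a) / a := by field_simp; ring
        rw [this]
        field_simp
      rw [this, padicValRat.neg, padicValRat.div hs0 hs1, hv1, sub_zero]
      exact h1

/-- For every odd `m` divisible by `3` and every nonzero rational `a` there are infinitely many
admissible classes modulo `2m`-th powers. -/
theorem infinite_admissible_classes {m : ℕ} (hm : Odd m) (h3 : 3 ∣ m) {a : ℚ} (ha : a ≠ 0) :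
    {c : ℚˣ ⧸ (powMonoidHom (2 * m) : ℚˣ →* ℚˣ).range |
      ∃ d : ℚˣ, QuotientGroup.mk d = c ∧ Admissible m a d}.Infinite := by
  obtain ⟨k, rfl⟩ := h3
  have hk : Odd k := by
    rcases Nat.even_or_odd k with h | h
    · exact absurd hm (Nat.not_odd_iff_even.2 (h.mul_left 3))
    · exact h
  intro hfin
  -- representatives
  let rep : ℚˣ ⧸ (powMonoidHom (2 * (3 * k)) : ℚˣ →* ℚˣ).range → ℚˣ := Quotient.out
  have hrep : ∀ c, (QuotientGroup.mk (rep c) : ℚˣ ⧸ (powMonoidHom (2 * (3 * k)) : ℚˣ →* ℚˣ).range)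
      = c := fun c => Quotient.out_eq' c
  -- a prime avoiding all representatives and `a`
  let B : ℕ := hfin.toFinset.sum (fun c => (rep c : ℚ).num.natAbs + (rep c : ℚ).den) +
    a.num.natAbs + a.den + 3
  obtain ⟨q, hBq, hq⟩ := Nat.exists_infinite_primes B
  have : Fact q.Prime := ⟨hq⟩
  have hval : ∀ x : ℚ, x ≠ 0 → x.num.natAbs + x.den < q → padicValRat q x = 0 := by
    intro x hx hlt
    rw [padicValRat_def]
    have h1 : padicValInt q x.num = 0 := by
      apply padicValInt.eq_zero_of_not_dvd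
      intro h
      have := Nat.le_of_dvd (Int.natAbs_pos.2 (Rat.num_ne_zero.2 hx)) (Int.natCast_dvd.1 h)
      omega
    have h2 : padicValNat q x.den = 0 := by
      apply padicValNat.eq_zero_of_not_dvd
      intro h
      have := Nat.le_of_dvd x.den_pos h
      omega
    rw [h1, h2]; norm_num
  have hqa : padicValRat q a = 0 := hval a ha (by
    have : 0 ≤ hfin.toFinset.sum (fun c => (rep c : ℚ).num.natAbs + (rep c : ℚ).den) := Nat.zero_le _
    omega)
  have hq2 : q ≠ 2 := by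
    have : 3 ≤ B := by omega
    omega
  obtain ⟨d, u, x, y, hu, hx, hd, hdu, hxy, hvd, h1, h2⟩ := exists_params ha hq2 hqa
  have hadm := admissible_of_params ha hk hu hx hd hdu hxy h1 h2
  let c : ℚˣ ⧸ (powMonoidHom (2 * (3 * k)) : ℚˣ →* ℚˣ).range := QuotientGroup.mk (Units.mk0 d hd)
  have hc : c ∈ hfin.toFinset := by
    rw [Set.Finite.mem_toFinset]
    exact ⟨Units.mk0 d hd, rfl, hadm⟩
  have hle : (rep c : ℚ).num.natAbs + (rep c : ℚ).den ≤
      hfin.toFinset.sum (fun c => (rep c : ℚ).num.natAbs + (rep c : ℚ).den) :=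
    Finset.single_le_sum (f := fun c => (rep c : ℚ).num.natAbs + (rep c : ℚ).den)
      (fun _ _ => Nat.zero_le _) hc
  have hv0 : padicValRat q (rep c : ℚ) = 0 := hval _ (rep c).ne_zero (by omega)
  have heq : (QuotientGroup.mk (rep c) : ℚˣ ⧸ (powMonoidHom (2 * (3 * k)) : ℚˣ →* ℚˣ).range) =
      QuotientGroup.mk (Units.mk0 d hd) := hrep c
  rw [QuotientGroup.eq] at heq
  obtain ⟨t, ht⟩ := heq
  have ht' : (t : ℚ) ^ (2 * (3 * k)) = (rep c : ℚ)⁻¹ * d := by
    have := congrArg (fun z : ℚˣ => (z : ℚ)) ht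
    simpa using this
  have hv : padicValRat q ((t : ℚ) ^ (2 * (3 * k))) = padicValRat q ((rep c : ℚ)⁻¹ * d) := by
    rw [ht']
  rw [padicValRat.pow, padicValRat.mul (inv_ne_zero (rep c).ne_zero) hd,
    padicValRat.inv, hv0, hvd] at hv
  push_cast at hv
  have h6 : (2 : ℤ) ∣ 3 := ⟨-(3 * k * padicValRat q (t : ℚ)), by linarith⟩
  omega

end MP241ea1
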