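import Pool.Agent.Helper10.TW.Point
import Pool.Agent.Helper10.TW.Classes

/-! Transport of positive rank, and the case where the Jacobian of `y² = x^m + a` has positive
rank. -/

namespace MP241ea1

open Polynomial

section transport

variable {f g : ℚ[X]} {c1 c2 : ℚ}

/-- the homomorphism `x ↦ c1 x`, `y ↦ c2 y` -/
noncomputable def scaleHom (h : C (c2 ^ 2) * f = g.comp (C c1 * X)) : CoordRing g →+* CoordRing f :=
  AdjoinRoot.lift ((xOf f).comp (compRingHom (C c1 * X))) (xOf f (C c2) * yEl f) (by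
    rw [eval₂_sub, eval₂_pow, eval₂_X, eval₂_C, mul_pow, yEl_sq, ← map_pow, ← map_mul, ← C_pow, h]
    simp)

lemma scaleHom_xOf (h : C (c2 ^ 2) * f = g.comp (C c1 * X)) (A : ℚ[X]) :
    scaleHom h (xOf g A) = xOf f (A.comp (C c1 * X)) := by
  unfold scaleHom
  rw [AdjoinRoot.lift_of]
  rfl

lemma scaleHom_yEl (h : C (c2 ^ 2) * f = g.comp (C c1 * X)) :
    scaleHom h (yEl g) = xOf f (C c2) * yEl f := by
  unfold scaleHom
  rw [AdjoinRoot.lift_root]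

lemma scale_symm (hc1 : c1 ≠ 0) (hc2 : c2 ≠ 0) (h : C (c2 ^ 2) * f = g.comp (C c1 * X)) :
    C (c2⁻¹ ^ 2) * g = f.comp (C c1⁻¹ * X) := by
  have h1 := congrArg (fun q => q.comp (C c1⁻¹ * X)) h
  simp only [mul_comp, C_comp, comp_assoc, X_comp] at h1
  rw [← mul_assoc, ← C_mul, mul_inv_cancel₀ hc1, C_1, one_mul, comp_X] at h1
  rw [← h1, ← mul_assoc, ← C_mul, ← mul_pow, inv_mul_cancel₀ hc2, one_pow, C_1, one_mul]

lemma scaleHom_scaleHom (hc1 : c1 ≠ 0) (hc2 : c2 ≠ 0) (h : C (c2 ^ 2) * f = g.comp (C c1 * X))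
    (h' : C (c2⁻¹ ^ 2) * g = f.comp (C c1⁻¹ * X)) (z : CoordRing g) :
    scaleHom h' (scaleHom h z) = z := by
  obtain ⟨A, B, rfl⟩ := exists_rep z
  have e : ∀ A : ℚ[X], (A.comp (C c1 * X)).comp (C c1⁻¹ * X) = A := by
    intro A
    rw [comp_assoc, mul_comp, C_comp, X_comp, ← mul_assoc, ← C_mul, mul_inv_cancel₀ hc1, C_1,
      one_mul, comp_X]
  rw [map_add, map_mul, map_add, map_mul, scaleHom_xOf, scaleHom_xOf, scaleHom_xOf, scaleHom_xOf,
    scaleHom_yEl, map_mul, scaleHom_xOf, scaleHom_yEl, e, e, C_comp, ← mul_assoc (xOf g (C c2)),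
    ← map_mul, ← C_mul, mul_inv_cancel₀ hc2, C_1, map_one, one_mul]

/-- scaling isomorphism of coordinate rings -/
noncomputable def scaleEquiv (hc1 : c1 ≠ 0) (hc2 : c2 ≠ 0)
    (h : C (c2 ^ 2) * f = g.comp (C c1 * X)) : CoordRing g ≃+* CoordRing f :=
  RingEquiv.ofBijective (scaleHom h) ⟨
    Function.LeftInverse.injective (g := scaleHom (scale_symm hc1 hc2 h))
      (scaleHom_scaleHom hc1 hc2 h (scale_symm hc1 hc2 h)),
    Function.RightInverse.surjective (g := scaleHom (scale_symm hc1 hc2 h)) (by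
      intro z
      have h2 := scale_symm hc1 hc2 h
      have h3 : C (c2⁻¹⁻¹ ^ 2) * f = g.comp (C c1⁻¹⁻¹ * X) := by rw [inv_inv, inv_inv]; exact h
      have := scaleHom_scaleHom (inv_ne_zero hc1) (inv_ne_zero hc2) h2 h3 z
      simp only [inv_inv] at this
      exact this)⟩

theorem posRank_scale (hc1 : c1 ≠ 0) (hc2 : c2 ≠ 0)
    (h : C (c2 ^ 2) * f = g.comp (C c1 * X)) (hg : PosRank g) : PosRank f := by
  obtain ⟨hdom, c, hc⟩ := hg
  let e := scaleEquiv hc1 hc2 h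
  have hdom' : IsDomain (CoordRing f) := e.symm.toMulEquiv.isDomain _
  refine ⟨hdom', ClassGroup.mulEquiv e c, fun n hn h1 => hc n hn ?_⟩
  rw [← map_pow] at h1
  exact (MulEquiv.map_eq_one_iff _).1 h1

end transport

lemma twist_comp (m : ℕ) (a c : ℚ) :
    (X ^ m + C a : ℚ[X]).comp (C c * X) = C (c ^ m) * X ^ m + C a := by
  rw [add_comp, pow_comp, X_comp, C_comp, mul_pow, C_pow]

lemma scale_eq_div {m : ℕ} {a c1 c2 d κ : ℚ} (hc1 : c1 ≠ 0) (h1 : c2 ^ 2 * d⁻¹ = c1 ^ m)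
    (h2 : κ = c1 ^ m * a) :
    (X ^ m + C κ : ℚ[X]) = C (c2 ^ 2) * (C d⁻¹ * (X ^ m + C a)).comp (C c1⁻¹ * X) := by
  rw [mul_comp, C_comp, twist_comp, ← mul_assoc, ← C_mul, h1, mul_add, ← mul_assoc, ← C_mul,
    ← C_mul, h2, inv_pow, mul_inv_cancel₀ (pow_ne_zero _ hc1), C_1, one_mul]

lemma scale_eq {m : ℕ} {b c1 c2 κ : ℚ} (hc1 : c1 ≠ 0) (h1 : c2 ^ 2 = c1 ^ m)
    (h2 : κ = c1 ^ m * b) :
    (X ^ m + C κ : ℚ[X]) = C (c2 ^ 2) * (X ^ m + C b).comp (C c1⁻¹ * X) := by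
  rw [twist_comp, h1, mul_add, ← mul_assoc, ← C_mul,
    ← C_mul, h2, inv_pow, mul_inv_cancel₀ (pow_ne_zero _ hc1), C_1, one_mul]

/-- The explicit admissible classes. -/
theorem admissible_of_posRank {k₀ : ℕ} (hk₀ : 1 ≤ k₀) {a : ℚ} (ha : a ≠ 0)
    (hr : PosRank (X ^ (2 * k₀ + 1) + C a)) {p : ℕ} [hp : Fact p.Prime] (hp2 : p ≠ 2)
    (hpa : 0 ≤ padicValRat p a) :
    ∃ d : ℚ, d ≠ 0 ∧ Admissible (2 * k₀ + 1) a d ∧
      padicValRat p d = -(3 * (2 * k₀ + 1) * (2 * k₀ + 1)) := by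
  have hp0 : (p : ℚ) ≠ 0 := by exact_mod_cast hp.out.ne_zero
  set m := 2 * k₀ + 1 with hm
  have haS : a ∈ Sp p := mem_Sp_of_val hpa
  let aS : Sp p := ⟨a, haS⟩
  -- `e = 1 + a p^(3m)`
  let eS : Sp p := 1 + (p : Sp p) * ((p : Sp p) ^ (6 * k₀ + 2) * aS)
  have heu : IsUnit eS := isUnit_one_add _
  obtain ⟨eiS, hei⟩ := heu.exists_right_inv
  have he : (eS : ℚ) = 1 + a * (p : ℚ) ^ (3 * m) := by
    have : (eS : ℚ) = 1 + (p : ℚ) * ((p : ℚ) ^ (6 * k₀ + 2) * a) := by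
      show (Sp p).subtype (1 + (p : Sp p) * ((p : Sp p) ^ (6 * k₀ + 2) * aS)) = _
      rw [map_add, map_one, map_mul, map_mul, map_pow, map_natCast]
      rfl
    rw [this]
    have h3 : 3 * m = 1 + (6 * k₀ + 2) := by omega
    rw [h3, pow_add (p : ℚ) 1, pow_one]
    ring
  set e : ℚ := (eS : ℚ) with hedef
  have hei' : e * (eiS : ℚ) = 1 := by
    have := congrArg (Sp p).subtype hei
    rw [map_mul, map_one] at this
    exact this
  have he0 : e ≠ 0 := by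
    intro h; rw [h, zero_mul] at hei'; exact zero_ne_one hei'
  have heinv : e⁻¹ = (eiS : ℚ) := inv_eq_of_mul_eq_one_right hei'
  have hve : padicValRat p e = 0 := by
    have h := unit_of (p := p) (x := eS) (c := 1)
      (fun h => hp.out.one_lt.ne' (by exact_mod_cast Int.eq_one_of_dvd_one (by positivity) h))
      (by simp [eS])
    exact h.2
  -- `D = p^(-3m) + a`
  let D : ℚ := ((p : ℚ) ^ (3 * m))⁻¹ + a
  have hD : D = ((p : ℚ) ^ (3 * m))⁻¹ * e := by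
    rw [he]
    have := pow_ne_zero (3 * m) hp0
    show ((p : ℚ) ^ (3 * m))⁻¹ + a = _
    field_simp
  have hD0 : D ≠ 0 := by
    rw [hD]; exact mul_ne_zero (inv_ne_zero (pow_ne_zero _ hp0)) he0
  have hDα : (((p : ℚ) ^ 3)⁻¹) ^ m + a = D := by
    show _ = ((p : ℚ) ^ (3 * m))⁻¹ + a
    rw [inv_pow, ← pow_mul]
  have hz : (e * ((p : ℚ) ^ 2)⁻¹)⁻¹ = (p : ℚ) * ((p : Sp p) * eiS : Sp p) := by
    rw [mul_inv, inv_inv, heinv, Subring.coe_mul, Subring.coe_natCast]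
    ring
  let κ₀ : Sp p := eS ^ m * aS
  have hκ₀ : (κ₀ : ℚ) = e ^ m * a := rfl
  refine ⟨D ^ m, pow_ne_zero _ hD0, ⟨?_, ?_, ?_⟩, ?_⟩
  · -- `d y² = x^m + a`
    refine posRank_of_point hp2 hk₀ κ₀ (c1 := (p : ℚ) * e) (c2 := ((p : ℚ) ^ (3 * k₀ + 2)) ^ m * D ^ m)
      (mul_ne_zero hp0 he0) (mul_ne_zero (pow_ne_zero _ (pow_ne_zero _ hp0)) (pow_ne_zero _ hD0))
      (x0 := ((p : ℚ) ^ 3)⁻¹) (y0 := (D ^ k₀)⁻¹) ?_ ?_ (inv_ne_zero (pow_ne_zero _ hD0))
      (inv_ne_zero (pow_ne_zero _ hp0)) ((p : Sp p) * eiS) ?_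
    · apply scale_eq_div (mul_ne_zero hp0 he0)
      · rw [hD]
        have h3 : ((p : ℚ) ^ (3 * k₀ + 2)) ^ 2 = p * (p : ℚ) ^ (3 * m) := by
          rw [← pow_mul, ← pow_succ']
          congr 1
          omega
        have h4 : (((p : ℚ) ^ (3 * k₀ + 2)) ^ m * (((p : ℚ) ^ (3 * m))⁻¹ * e) ^ m) ^ 2 =
            ((((p : ℚ) ^ (3 * k₀ + 2)) ^ 2) * (((p : ℚ) ^ (3 * m))⁻¹ * e) ^ 2) ^ m := by ring
        rw [h4, h3, ← div_eq_mul_inv, ← div_pow]
        congr 1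
        have := pow_ne_zero (3 * m) hp0
        field_simp
      · rw [hκ₀]; ring
    · rw [eval_mul, eval_C, eval_add, eval_pow, eval_X, eval_C, hDα, inv_pow, ← pow_mul, hm,
        pow_succ, mul_inv, mul_assoc, inv_mul_cancel₀ hD0, mul_one, mul_comm k₀ 2]
    · rw [← hz]
      congr 1
      field_simp
  · -- `y² = x^m + a d^(m-1)`
    refine posRank_scale (c1 := (D ^ (2 * k₀))⁻¹) (c2 := (D ^ (k₀ * m))⁻¹)
      (inv_ne_zero (pow_ne_zero _ hD0)) (inv_ne_zero (pow_ne_zero _ hD0)) ?_ hr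
    rw [twist_comp, mul_add, ← C_mul]
    congr 2
    · congr 1
      rw [inv_pow, inv_pow, ← pow_mul, ← pow_mul]
      congr 2
      ring
    · congr 1
      have h3 : m - 1 = 2 * k₀ := by omega
      rw [h3, inv_pow, ← pow_mul, ← pow_mul]
      have h4 : k₀ * m * 2 = m * (2 * k₀) := by ring
      rw [h4]
      have := pow_ne_zero (m * (2 * k₀)) hD0
      field_simp
  · -- `y² = x^m + a d`
    refine posRank_of_point hp2 hk₀ κ₀ (c1 := ((p : ℚ) ^ (3 * k₀ + 2)) ^ 2)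
      (c2 := ((p : ℚ) ^ (3 * k₀ + 2)) ^ m)
      (pow_ne_zero _ (pow_ne_zero _ hp0)) (pow_ne_zero _ (pow_ne_zero _ hp0))
      (x0 := D * ((p : ℚ) ^ 3)⁻¹) (y0 := D ^ (k₀ + 1)) ?_ ?_ (pow_ne_zero _ hD0)
      (mul_ne_zero hD0 (inv_ne_zero (pow_ne_zero _ hp0))) ((p : Sp p) * eiS) ?_
    · apply scale_eq (pow_ne_zero _ (pow_ne_zero _ hp0))
      · ring
      · rw [hκ₀, hD]
        have h3 : ((p : ℚ) ^ (3 * k₀ + 2)) ^ 2 = p * (p : ℚ) ^ (3 * m) := by
          rw [← pow_mul, ← pow_succ']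
          congr 1
          omega
        rw [h3]
        have h4 : (p * (p : ℚ) ^ (3 * m)) ^ m * (a * (((p : ℚ) ^ (3 * m))⁻¹ * e) ^ m) =
            a * ((p * (p : ℚ) ^ (3 * m)) * (((p : ℚ) ^ (3 * m))⁻¹ * e)) ^ m := by
          rw [mul_pow _ (((p : ℚ) ^ (3 * m))⁻¹ * e) m]; ring
        rw [h4]
        have h5 : (p * (p : ℚ) ^ (3 * m)) * (((p : ℚ) ^ (3 * m))⁻¹ * e) = p * e := by
          have := pow_ne_zero (3 * m) hp0
          field_simp
        rw [h5, mul_pow]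
        ring
    · rw [eval_add, eval_pow, eval_X, eval_C, mul_pow, mul_comm a, ← mul_add, hDα, ← pow_succ,
        ← pow_mul, hm]
      congr 1
      ring
    · rw [← hz]
      congr 1
      have h3 : ((p : ℚ) ^ (3 * k₀ + 2)) ^ 2 = p * (p : ℚ) ^ (3 * m) := by
        rw [← pow_mul, ← pow_succ']
        congr 1
        omega
      rw [h3, hD]
      have := pow_ne_zero (3 * m) hp0
      field_simp
  · rw [padicValRat.pow, hD, padicValRat.mul (inv_ne_zero (pow_ne_zero _ hp0)) he0, hve,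
      padicValRat.inv, padicValRat.pow, padicValRat.self hp.out.one_lt]
    rw [hm]
    push_cast
    ring

/-- If the Jacobian of `y² = x^m + a` has positive rank, there are infinitely many admissible
classes. -/
theorem infinite_of_posRank {m : ℕ} (hm : Odd m) (hm3 : 3 ≤ m) {a : ℚ} (ha : a ≠ 0)
    (hr : PosRank (X ^ m + C a)) :
    {c : ℚˣ ⧸ (powMonoidHom (2 * m) : ℚˣ →* ℚˣ).range |
      ∃ d : ℚˣ, QuotientGroup.mk d = c ∧ Admissible m a d}.Infinite := by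
  obtain ⟨k₀, rfl⟩ := hm
  apply infinite_classes_of_primes (m := 2 * k₀ + 1) (P := Admissible (2 * k₀ + 1) a)
  intro N
  obtain ⟨q, hq, hqp⟩ := Nat.exists_infinite_primes (N + a.den + 3)
  haveI : Fact q.Prime := ⟨hqp⟩
  have hva : 0 ≤ padicValRat q a := by
    rw [padicValRat_def]
    have h2 : padicValNat q a.den = 0 := by
      apply padicValNat.eq_zero_of_not_dvd
      intro h
      have := Nat.le_of_dvd a.den_pos h
      omega
    rw [h2]
    simp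
  obtain ⟨d, hd, hadm, hv⟩ := admissible_of_posRank (by omega : 1 ≤ k₀) ha hr
    (by omega : q ≠ 2) hva
  refine ⟨q, by omega, hqp, d, hd, hadm, ?_⟩
  rw [hv]
  rintro ⟨t, ht⟩
  push_cast at ht
  have h1 : (2 * (k₀ : ℤ) + 1) * (2 * t + 3 * (2 * k₀ + 1)) = 0 := by linarith
  rcases mul_eq_zero.1 h1 with h | h <;> omega

end MP241ea1
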