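import Mathlib

/-! Non-torsion criterion on `y² = x³ + κ` over `ℚ` by 2-adic valuations of the doubling orbit. -/

namespace MP241ea1

open WeierstrassCurve WeierstrassCurve.Affine

/-- The curve `y² = x³ + κ`. -/
noncomputable abbrev WC (κ : ℚ) : WeierstrassCurve ℚ := ⟨0, 0, 0, 0, κ⟩

/-- `P = (x, y)` with `x ≠ 0` and the 2-adic valuation of `x³/κ` is `v`. -/
def Good (κ : ℚ) (v : ℤ) (P : (WC κ).toAffine.Point) : Prop :=
  ∃ x y h, P = .some x y h ∧ x ≠ 0 ∧ padicValRat 2 (x ^ 3 / κ) = v

lemma equation_WC {κ x y : ℚ} : (WC κ).toAffine.Equation x y ↔ y ^ 2 = x ^ 3 + κ := by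
  rw [equation_iff]; simp

lemma nonsingular_WC {κ x y : ℚ} (h : y ^ 2 = x ^ 3 + κ) (hy : y ≠ 0) :
    (WC κ).toAffine.Nonsingular x y := by
  rw [nonsingular_iff]
  refine ⟨equation_WC.2 h, Or.inr ?_⟩
  intro h'
  apply hy
  simp only at h'
  linarith

lemma val_eight : padicValRat 2 (-8 : ℚ) = 3 := by
  have : (-8 : ℚ) = -((2 : ℕ) : ℚ) ^ 3 := by norm_num
  rw [this, padicValRat.neg, padicValRat.pow, padicValRat.self (by norm_num)]
  norm_num

lemma val_64 : padicValRat 2 (64 : ℚ) = 6 := by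
  have : (64 : ℚ) = ((2 : ℕ) : ℚ) ^ 6 := by norm_num
  rw [this, padicValRat.pow, padicValRat.self (by norm_num)]
  norm_num

/-- valuation of the doubling map in the coordinate `s = x³/κ` -/
lemma val_dbl {s : ℚ} (hs : s ≠ 0) {v : ℤ} (hv : padicValRat 2 s = v) (h : v < 0 ∨ 4 ≤ v) :
    s - 8 ≠ 0 ∧ 1 + s ≠ 0 ∧
    padicValRat 2 (s * (s - 8) ^ 3 / (64 * (1 + s) ^ 3)) = if v < 0 then v - 6 else v + 3 := by
  have h8 : s - 8 ≠ 0 := by
    intro h0
    have : s = -(-8) := by linarith
    rw [this, padicValRat.neg, val_eight] at hv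
    omega
  have h1 : 1 + s ≠ 0 := by
    intro h0
    have : s = -1 := by linarith
    rw [this, padicValRat.neg, padicValRat.one] at hv
    omega
  refine ⟨h8, h1, ?_⟩
  have e8 : padicValRat 2 (s - 8) = if v < 0 then v else 3 := by
    split_ifs with hc
    · rw [sub_eq_add_neg, padicValRat.add_eq_of_lt (by rwa [← sub_eq_add_neg]) hs (by norm_num)
        (by rw [hv, val_eight]; omega), hv]
    · rw [sub_eq_add_neg, add_comm, padicValRat.add_eq_of_lt (by rwa [add_comm, ← sub_eq_add_neg])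
        (by norm_num) hs (by rw [hv, val_eight]; omega), val_eight]
  have e1 : padicValRat 2 (1 + s) = if v < 0 then v else 0 := by
    split_ifs with hc
    · rw [add_comm, padicValRat.add_eq_of_lt (by rwa [add_comm]) hs (by norm_num)
        (by rw [hv, padicValRat.one]; omega), hv]
    · rw [padicValRat.add_eq_of_lt h1 (by norm_num) hs
        (by rw [hv, padicValRat.one]; omega), padicValRat.one]
  rw [padicValRat.div (mul_ne_zero hs (pow_ne_zero _ h8))
    (mul_ne_zero (by norm_num) (pow_ne_zero _ h1)), padicValRat.mul hs (pow_ne_zero _ h8),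
    padicValRat.mul (by norm_num) (pow_ne_zero _ h1), padicValRat.pow, padicValRat.pow, e8, e1,
    hv, val_64]
  split_ifs <;> push_cast <;> ring

lemma good_double {κ : ℚ} (hκ : κ ≠ 0) {v : ℤ} (h : v < 0 ∨ 4 ≤ v)
    {P : (WC κ).toAffine.Point} (hP : Good κ v P) :
    Good κ (if v < 0 then v - 6 else v + 3) (P + P) := by
  obtain ⟨x, y, hn, rfl, hx, hv⟩ := hP
  have hs : x ^ 3 / κ ≠ 0 := div_ne_zero (pow_ne_zero _ hx) hκ
  obtain ⟨h8, h1, hval⟩ := val_dbl hs hv h
  have heq : y ^ 2 = x ^ 3 + κ := equation_WC.1 hn.1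
  have hs1 : x ^ 3 + κ ≠ 0 := by
    intro h0
    apply h1
    field_simp
    linarith
  have hs8 : x ^ 3 - 8 * κ ≠ 0 := by
    intro h0
    apply h8
    field_simp
    linarith
  have hy : y ≠ 0 := by
    rintro rfl
    apply hs1
    rw [← heq]; norm_num
  have hy' : y ≠ (WC κ).toAffine.negY x y := by
    simp only [negY]
    intro h'
    apply hy
    linarith
  rw [Point.add_self_of_Y_ne hy']
  have hX : (WC κ).toAffine.addX x x ((WC κ).toAffine.slope x x y y)
      = x * (x ^ 3 - 8 * κ) / (4 * (x ^ 3 + κ)) := by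
    rw [slope_of_Y_ne rfl hy']
    simp only [addX, negY]
    rw [← heq]
    have : (y - (-y - 0 * x - 0)) = 2 * y := by ring
    rw [this]
    field_simp
    rw [heq]
    ring
  refine ⟨_, _, _, rfl, ?_, ?_⟩
  · rw [hX]
    exact div_ne_zero (mul_ne_zero hx hs8) (mul_ne_zero (by norm_num) hs1)
  · rw [hX, ← hval]
    congr 1
    have h1' : κ + x ^ 3 ≠ 0 := by rwa [add_comm]
    field_simp
    ring

/-- The non-torsion criterion. -/
theorem good_nontorsion {κ : ℚ} (hκ : κ ≠ 0) {v : ℤ} (h : v < 0 ∨ 4 ≤ v)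
    {P : (WC κ).toAffine.Point} (hP : Good κ v P) (n : ℕ) (hn : n ≠ 0) : n • P ≠ 0 := by
  have key : ∀ j : ℕ, Good κ (if v < 0 then v - 6 * j else v + 3 * j) (2 ^ j • P) := by
    intro j
    induction j with
    | zero => simpa using hP
    | succ j ih =>
      have h' : (if v < 0 then v - 6 * (j : ℤ) else v + 3 * j) < 0 ∨
          4 ≤ (if v < 0 then v - 6 * (j : ℤ) else v + 3 * j) := by
        split_ifs with hc
        · left; omega
        · right; omega
      have := good_double hκ h' ih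
      have e2 : (2 ^ (j + 1) : ℕ) • P = 2 ^ j • P + 2 ^ j • P := by rw [pow_succ, mul_two, add_nsmul]
      rw [e2]
      convert this using 1
      push_cast
      split_ifs <;> omega
  intro h0
  have hfin : (Set.range fun j : ℕ => 2 ^ j • P).Finite := by
    have : (AddSubmonoid.multiples P : Set (WC κ).toAffine.Point).Finite := by
      have hf : IsOfFinAddOrder P := isOfFinAddOrder_iff_nsmul_eq_zero.2 ⟨n, Nat.pos_of_ne_zero hn, h0⟩
      exact finite_multiples.2 hf
    refine this.subset ?_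
    rintro _ ⟨j, rfl⟩
    exact ⟨2 ^ j, rfl⟩
  have hinj : Function.Injective fun j : ℕ => 2 ^ j • P := by
    intro i j hij
    obtain ⟨x, y, hxy, e1, -, v1⟩ := key i
    obtain ⟨x', y', hxy', e2, -, v2⟩ := key j
    simp only at hij
    rw [e1, e2] at hij
    injection hij with hx _
    subst hx
    rw [v1] at v2
    split_ifs at v2 <;> omega
  exact Set.infinite_range_of_injective hinj hfin

end MP241ea1
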