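import Pool.Agent.Helper10.TW.Core

/-! No polynomial Pell-type identity for a point near infinity. -/

namespace MP241ea1

open Polynomial Finset

section lifting

variable {p : ℕ} [hp : Fact p.Prime]

lemma exists_lift {P : ℚ[X]} (h : ∀ i, P.coeff i ∈ Sp p) :
    ∃ P' : (Sp p)[X], P'.map (Sp p).subtype = P := by
  have : P ∈ Polynomial.lifts (Sp p).subtype := by
    rw [Polynomial.lifts_iff_coeff_lifts]
    intro n
    exact ⟨⟨P.coeff n, h n⟩, rfl⟩
  exact (Polynomial.mem_lifts _).1 this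

lemma exists_denom (P : ℚ[X]) : ∃ N : Sp p, N ≠ 0 ∧ ∀ i, (C (N : ℚ) * P).coeff i ∈ Sp p := by
  induction P using Polynomial.induction_on' with
  | add P Q hP hQ =>
    obtain ⟨N₁, h₁, hN₁⟩ := hP
    obtain ⟨N₂, h₂, hN₂⟩ := hQ
    refine ⟨N₁ * N₂, mul_ne_zero h₁ h₂, fun i => ?_⟩
    have e : (C ((N₁ * N₂ : Sp p) : ℚ) * (P + Q)).coeff i =
        (N₂ : ℚ) * (C (N₁ : ℚ) * P).coeff i + N₁ * (C (N₂ : ℚ) * Q).coeff i := by
      rw [Subring.coe_mul, coeff_C_mul, coeff_C_mul, coeff_C_mul, coeff_add]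
      ring
    rw [e]
    exact (Sp p).add_mem ((Sp p).mul_mem N₂.2 (hN₁ i)) ((Sp p).mul_mem N₁.2 (hN₂ i))
  | monomial n a =>
    refine ⟨(a.den : Sp p), ?_, fun i => ?_⟩
    · intro h
      have : ((a.den : Sp p) : ℚ) = 0 := by rw [h]; rfl
      rw [Subring.coe_natCast] at this
      exact a.den_ne_zero (by exact_mod_cast this)
    · rw [coeff_C_mul, coeff_monomial, Subring.coe_natCast]
      split_ifs
      · rw [Rat.den_mul_eq_num]
        exact intCast_mem _ _
      · rw [mul_zero]; exact (Sp p).zero_mem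

/-- scaling a pair of polynomials to a primitive pair -/
lemma exists_scale (A B : ℚ[X]) (hA : A ≠ 0) :
    ∃ r : ℚ, r ≠ 0 ∧ (∀ i, (C r * A).coeff i ∈ Sp p) ∧ (∀ i, (C r * B).coeff i ∈ Sp p) ∧
      ((∃ i, (C r * A).coeff i = 1) ∨ ∃ i, (C r * B).coeff i = 1) := by
  classical
  let S : Finset ℚ := A.support.image A.coeff ∪ B.support.image B.coeff
  have hS : S.Nonempty := by
    refine ⟨A.coeff A.natDegree, mem_union_left _ (mem_image_of_mem _ ?_)⟩
    exact mem_support_iff.2 (by rw [coeff_natDegree]; exact leadingCoeff_ne_zero.2 hA)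
  obtain ⟨s, hs, hmin⟩ := S.exists_min_image (padicValRat p) hS
  have hs0 : s ≠ 0 := by
    rcases mem_union.1 hs with h | h
    · obtain ⟨i, hi, rfl⟩ := mem_image.1 h
      exact mem_support_iff.1 hi
    · obtain ⟨i, hi, rfl⟩ := mem_image.1 h
      exact mem_support_iff.1 hi
  have hkey : ∀ t ∈ S, s⁻¹ * t ∈ Sp p := by
    intro t ht
    have ht0 : t ≠ 0 := by
      rcases mem_union.1 ht with h | h
      · obtain ⟨i, hi, rfl⟩ := mem_image.1 h
        exact mem_support_iff.1 hi
      · obtain ⟨i, hi, rfl⟩ := mem_image.1 h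
        exact mem_support_iff.1 hi
    apply mem_Sp_of_val
    rw [padicValRat.mul (inv_ne_zero hs0) ht0, padicValRat.inv]
    have := hmin t ht
    linarith
  refine ⟨s⁻¹, inv_ne_zero hs0, fun i => ?_, fun i => ?_, ?_⟩
  · rw [coeff_C_mul]
    by_cases h : A.coeff i = 0
    · rw [h, mul_zero]; exact (Sp p).zero_mem
    · exact hkey _ (mem_union_left _ (mem_image_of_mem _ (mem_support_iff.2 h)))
  · rw [coeff_C_mul]
    by_cases h : B.coeff i = 0
    · rw [h, mul_zero]; exact (Sp p).zero_mem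
    · exact hkey _ (mem_union_right _ (mem_image_of_mem _ (mem_support_iff.2 h)))
  · rcases mem_union.1 hs with h | h
    · obtain ⟨i, hi, hi'⟩ := mem_image.1 h
      left
      exact ⟨i, by rw [coeff_C_mul, hi', inv_mul_cancel₀ hs0]⟩
    · obtain ⟨i, hi, hi'⟩ := mem_image.1 h
      right
      exact ⟨i, by rw [coeff_C_mul, hi', inv_mul_cancel₀ hs0]⟩

lemma map_subtype_injective : Function.Injective (Polynomial.map (Sp p).subtype) :=
  Polynomial.map_injective _ (fun _ _ h => Subtype.ext h)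

lemma p_not_unit : ¬ IsUnit (p : Sp p) := by
  intro h
  obtain ⟨e, he⟩ := h.exists_right_inv
  have h1 : (p : ℚ) * (e : ℚ) = 1 := by
    have := congrArg (Sp p).subtype he
    simpa using this
  have he1 : padicNorm p ((p : ℚ) * e) < 1 := by
    rw [padicNorm.mul, padicNorm.padicNorm_p_of_prime]
    have h2 : padicNorm p (e : ℚ) ≤ 1 := e.2
    have hp1 : (1 : ℚ) < p := by exact_mod_cast hp.out.one_lt
    have : (p : ℚ)⁻¹ < 1 := inv_lt_one_of_one_lt₀ hp1
    calc (p : ℚ)⁻¹ * padicNorm p (e : ℚ) ≤ (p : ℚ)⁻¹ * 1 := by gcongr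
      _ < 1 := by linarith
  rw [h1, padicNorm.one] at he1
  exact lt_irrefl _ he1

lemma p_prime : Prime (p : Sp p) := by
  refine ⟨?_, p_not_unit, fun a b hab => ?_⟩
  · intro h
    have : ((p : Sp p) : ℚ) = 0 := by rw [h]; rfl
    rw [Subring.coe_natCast] at this
    exact hp.out.ne_zero (by exact_mod_cast this)
  · rcases dvd_or_isUnit a with h | h
    · exact Or.inl h
    · right
      exact (h.dvd_mul_left).1 hab

end lifting

/-- parity of degrees in a domain -/
lemma natDegree_sq_sub {F : Type*} [CommRing F] [IsDomain F] {f A B : F[X]} (hf : Odd f.natDegree)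
    (hB : B ≠ 0) :
    2 * A.natDegree ≤ (A ^ 2 - f * B ^ 2).natDegree ∧
      f.natDegree + 2 * B.natDegree ≤ (A ^ 2 - f * B ^ 2).natDegree ∧
      ((A ^ 2 - f * B ^ 2).natDegree = 2 * A.natDegree ∨
        (A ^ 2 - f * B ^ 2).natDegree = f.natDegree + 2 * B.natDegree) := by
  have hf0 : f ≠ 0 := by rintro rfl; simp at hf
  have h1 : (A ^ 2).natDegree = 2 * A.natDegree := natDegree_pow _ _
  have h2 : (f * B ^ 2).natDegree = f.natDegree + 2 * B.natDegree := by
    rw [natDegree_mul hf0 (pow_ne_zero _ hB), natDegree_pow]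
  obtain ⟨k, hk⟩ := hf
  rcases lt_trichotomy (2 * A.natDegree) (f.natDegree + 2 * B.natDegree) with h | h | h
  · have h3 : (A ^ 2 - f * B ^ 2).natDegree = f.natDegree + 2 * B.natDegree := by
      rw [natDegree_sub_eq_right_of_natDegree_lt (by rw [h1, h2]; exact h), h2]
    rw [h3]
    exact ⟨h.le, le_rfl, Or.inr rfl⟩
  · omega
  · have h3 : (A ^ 2 - f * B ^ 2).natDegree = 2 * A.natDegree := by
      rw [natDegree_sub_eq_left_of_natDegree_lt (by rw [h1, h2]; exact h), h1]
    rw [h3]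
    exact ⟨le_rfl, h.le, Or.inl rfl⟩

/-- reduction modulo `p` of a primitive solution -/
lemma integral_shape {p : ℕ} [hp : Fact p.Prime] {k₀ : ℕ} (κ₀ : Sp p)
    {z₁ c : Sp p} {A B : (Sp p)[X]} {n : ℕ}
    (hid : A ^ 2 - (X ^ (2 * k₀ + 1) + C ((p : Sp p) ^ (2 * k₀ + 1) * κ₀)) * B ^ 2 =
      C c * (1 - C ((p : Sp p) * z₁) * X) ^ n)
    (hprim : (∃ i, A.coeff i = 1) ∨ ∃ i, B.coeff i = 1) :
    IsUnit c ∧ ∃ u A₁ B₁, IsUnit u ∧ A = C u + C (p : Sp p) * A₁ ∧ B = C (p : Sp p) * B₁ := by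
  let P : Ideal (Sp p) := Ideal.span {(p : Sp p)}
  have hP : P.IsPrime := (Ideal.span_singleton_prime (p_prime (p := p)).ne_zero).2 p_prime
  have : IsDomain (Sp p ⧸ P) := (Ideal.Quotient.isDomain_iff_prime P).2 hP
  let ρ : Sp p →+* Sp p ⧸ P := Ideal.Quotient.mk P
  have hρ : ∀ x, ρ x = 0 ↔ (p : Sp p) ∣ x := fun x => by
    rw [Ideal.Quotient.eq_zero_iff_mem, Ideal.mem_span_singleton]
  have hρp : ρ (p : Sp p) = 0 := (hρ _).2 dvd_rfl
  have hρκ : ρ ((p : Sp p) ^ (2 * k₀ + 1) * κ₀) = 0 := by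
    rw [map_mul, map_pow, hρp, zero_pow (by omega), zero_mul]
  have hρz : ρ ((p : Sp p) * z₁) = 0 := by rw [map_mul, hρp, zero_mul]
  have hid' := congrArg (Polynomial.map ρ) hid
  rw [Polynomial.map_sub, Polynomial.map_mul, Polynomial.map_mul, Polynomial.map_add,
    Polynomial.map_pow, Polynomial.map_pow, Polynomial.map_pow, Polynomial.map_pow,
    Polynomial.map_sub, Polynomial.map_mul, Polynomial.map_one, map_X, map_C, map_C, map_C,
    hρκ, hρz, C_0, zero_mul, sub_zero, one_pow, mul_one, add_zero] at hid'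
  have hX : (X ^ (2 * k₀ + 1) : (Sp p ⧸ P)[X]).natDegree = 2 * k₀ + 1 := natDegree_X_pow _
  have hBρ : B.map ρ = 0 := by
    by_contra hne
    have h := (natDegree_sq_sub (f := X ^ (2 * k₀ + 1)) (A := A.map ρ) (by
      rw [hX]; exact ⟨k₀, rfl⟩) hne).2.1
    rw [hid', natDegree_C, hX] at h
    omega
  rw [hBρ, zero_pow (by norm_num), mul_zero, sub_zero] at hid'
  have hA0 : (A.map ρ).natDegree = 0 := by
    have h := congrArg natDegree hid'
    rw [natDegree_pow, natDegree_C] at h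
    omega
  have hBdvd : ∀ i, (p : Sp p) ∣ B.coeff i := fun i => by
    rw [← hρ, ← coeff_map, hBρ, coeff_zero]
  have hAdvd : ∀ i, i ≠ 0 → (p : Sp p) ∣ A.coeff i := fun i hi => by
    rw [← hρ, ← coeff_map]
    exact coeff_eq_zero_of_natDegree_lt (by omega)
  have hAu : IsUnit (A.coeff 0) := by
    rcases hprim with ⟨i, hi⟩ | ⟨i, hi⟩
    · rcases eq_or_ne i 0 with rfl | h0
      · rw [hi]; exact isUnit_one
      · exfalso
        have := hAdvd i h0
        rw [hi] at this
        exact p_not_unit (isUnit_of_dvd_one this)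
    · exfalso
      have := hBdvd i
      rw [hi] at this
      exact p_not_unit (isUnit_of_dvd_one this)
  constructor
  · rcases dvd_or_isUnit c with h | h
    · exfalso
      rw [(hρ c).2 h, C_0] at hid'
      have h0 : A.map ρ = 0 := pow_eq_zero_iff (n := 2) (by norm_num) |>.1 hid'
      have : (p : Sp p) ∣ A.coeff 0 := by rw [← hρ, ← coeff_map, h0, coeff_zero]
      exact p_not_unit (isUnit_of_dvd_unit this hAu)
    · exact h
  · have h1 : C (p : Sp p) ∣ A - C (A.coeff 0) := by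
      rw [C_dvd_iff_dvd_coeff]
      intro i
      rw [coeff_sub, coeff_C]
      split_ifs with h
      · rw [h, sub_self]; exact dvd_zero _
      · rw [sub_zero]; exact hAdvd i h
    have h2 : C (p : Sp p) ∣ B := by
      rw [C_dvd_iff_dvd_coeff]
      exact hBdvd
    obtain ⟨A₁, hA₁⟩ := h1
    obtain ⟨B₁, hB₁⟩ := h2
    exact ⟨A.coeff 0, A₁, B₁, hAu, by rw [← hA₁]; ring, hB₁⟩

lemma natDegree_mul_derivative_le {F : Type*} [Field F] {f q : F[X]} {m : ℕ}
    (hf : f.natDegree ≤ m + 1) : (f * derivative q).natDegree ≤ m + q.natDegree := by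
  rcases Nat.eq_zero_or_pos q.natDegree with h | h
  · rw [derivative_of_natDegree_zero h, mul_zero, natDegree_zero]
    exact Nat.zero_le _
  · have h1 := natDegree_derivative_lt h.ne'
    have h2 := natDegree_mul_le (p := f) (q := derivative q)
    omega

/-- the polynomial identities over a field -/
lemma exists_G {F : Type*} [Field F] [CharZero F] {f a b : F[X]} {k₀ n : ℕ} {c x0 : F}
    (hf : f.natDegree = 2 * k₀ + 1) (hc : c ≠ 0) (hn : n ≠ 0)
    (hid : a ^ 2 - f * b ^ 2 = C c * (X - C x0) ^ n) (hf0 : f.eval x0 ≠ 0)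
    (hab : a.eval x0 ≠ 0 ∨ b.eval x0 ≠ 0) :
    ∃ G : F[X], a * DD f b - 2 * f * derivative a * b = (X - C x0) ^ (n - 1) * G ∧
      G.natDegree ≤ k₀ ∧ G.eval x0 ≠ 0 := by
  obtain ⟨n', rfl⟩ : ∃ n', n = n' + 1 := ⟨n - 1, by omega⟩
  rw [Nat.add_sub_cancel]
  have hb : b ≠ 0 := by
    rintro rfl
    have h := congrArg (eval x0) hid
    simp only [eval_sub, eval_pow, eval_mul, eval_X, eval_C, sub_self, zero_pow
      (Nat.succ_ne_zero n'), mul_zero, zero_pow (two_ne_zero), sub_zero] at h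
    rcases hab with h' | h'
    · exact h' (pow_eq_zero_iff (two_ne_zero) |>.1 h)
    · exact h' eval_zero
  set y : F[X] := X - C x0 with hy
  have hy1 : derivative y = 1 := by rw [hy, derivative_sub, derivative_X, derivative_C, sub_zero]
  have hyp : Prime y := prime_X_sub_C x0
  have hd := congrArg derivative hid
  rw [derivative_sub, derivative_pow, derivative_mul, derivative_pow, derivative_C_mul,
    derivative_pow, hy1] at hd
  norm_num at hd
  have hC2 : (C 2 : F[X]) = 2 := C_ofNat 2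
  rw [hC2] at hd
  have e1 : b * (a * DD f b - 2 * f * derivative a * b) =
      y ^ n' * (C c * (2 * derivative a * y - (n' + 1) * a)) := by
    unfold DD
    linear_combination (a : F[X]) * (-1) * hd + 2 * derivative a * hid
  have e2 : a * (a * DD f b - 2 * f * derivative a * b) =
      y ^ n' * (C c * (y * DD f b - (n' + 1) * f * b)) := by
    unfold DD
    linear_combination (2 * f * derivative b + derivative f * b) * hid - f * b * hd
  have hdvd : y ^ n' ∣ a * DD f b - 2 * f * derivative a * b := by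
    rcases hab with h | h
    · exact hyp.pow_dvd_of_dvd_mul_left n' (fun h' => h (by
        rw [hy, dvd_iff_isRoot] at h'; exact h')) ⟨_, e2⟩
    · exact hyp.pow_dvd_of_dvd_mul_left n' (fun h' => h (by
        rw [hy, dvd_iff_isRoot] at h'; exact h')) ⟨_, e1⟩
  obtain ⟨G, hG⟩ := hdvd
  have hy0 : y ^ n' ≠ 0 := pow_ne_zero _ hyp.ne_zero
  refine ⟨G, hG, ?_, ?_⟩
  · by_cases hG0 : G = 0
    · rw [hG0, natDegree_zero]; exact Nat.zero_le _
    have h1 : (a * DD f b - 2 * f * derivative a * b).natDegree = n' + G.natDegree := by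
      rw [hG, natDegree_mul hy0 hG0, natDegree_pow, hy, natDegree_X_sub_C, mul_one]
    have h2 : (a ^ 2 - f * b ^ 2).natDegree = n' + 1 := by
      rw [hid, natDegree_C_mul hc, natDegree_pow, hy, natDegree_X_sub_C, mul_one]
    have h3 := natDegree_sq_sub (f := f) (A := a) (B := b) (by rw [hf]; exact ⟨k₀, rfl⟩) hb
    rw [h2, hf] at h3
    have h4 : (a * DD f b - 2 * f * derivative a * b).natDegree ≤
        a.natDegree + b.natDegree + 2 * k₀ := by
      have t1 : (f * derivative b).natDegree ≤ 2 * k₀ + b.natDegree :=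
        natDegree_mul_derivative_le hf.le
      have t2 : (f * derivative a).natDegree ≤ 2 * k₀ + a.natDegree :=
        natDegree_mul_derivative_le hf.le
      have t3 : (derivative f).natDegree ≤ 2 * k₀ := by
        have := natDegree_derivative_le f
        omega
      have e : a * DD f b - 2 * f * derivative a * b =
          C 2 * (a * (f * derivative b)) + a * (derivative f * b) + C (-2) * (f * derivative a * b) := by
        unfold DD
        rw [C_neg, C_ofNat]
        ring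
      rw [e]
      refine (natDegree_add_le_of_degree_le (natDegree_add_le_of_degree_le
        (n := a.natDegree + b.natDegree + 2 * k₀) ?_ ?_) ?_)
      · refine (natDegree_C_mul_le _ _).trans (natDegree_mul_le.trans ?_)
        omega
      · refine natDegree_mul_le.trans ?_
        have := natDegree_mul_le (p := derivative f) (q := b)
        omega
      · refine (natDegree_C_mul_le _ _).trans (natDegree_mul_le.trans ?_)
        omega
    omega
  · intro hG0
    rw [hG] at e1 e2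
    have e1' : b * G = C c * (2 * derivative a * y - (n' + 1) * a) :=
      mul_left_cancel₀ hy0 (by rw [← e1]; ring)
    have e2' : a * G = C c * (y * DD f b - (n' + 1) * f * b) :=
      mul_left_cancel₀ hy0 (by rw [← e2]; ring)
    have h1 := congrArg (eval x0) e1'
    have h2 := congrArg (eval x0) e2'
    have hyx : eval x0 y = 0 := by rw [hy]; simp
    have hn0 : (n' : F) + 1 ≠ 0 := Nat.cast_add_one_ne_zero n'
    simp only [eval_mul, eval_sub, eval_add, eval_C, hG0, hyx, mul_zero, zero_mul, zero_sub,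
      eval_natCast, eval_one, eval_ofNat] at h1 h2
    have ha0 : eval x0 a = 0 := by
      have : c * ((n' + 1 : F) * eval x0 a) = 0 := by linear_combination h1
      rcases mul_eq_zero.1 this with h | h
      · exact absurd h hc
      · rcases mul_eq_zero.1 h with h | h
        · exact absurd h hn0
        · exact h
    have hb0 : eval x0 b = 0 := by
      have : c * ((n' + 1 : F) * (eval x0 f * eval x0 b)) = 0 := by linear_combination h2
      rcases mul_eq_zero.1 this with h | h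
      · exact absurd h hc
      · rcases mul_eq_zero.1 h with h | h
        · exact absurd h hn0
        · rcases mul_eq_zero.1 h with h | h
          · exact absurd h hf0
          · exact h
    rcases hab with h | h
    · exact h ha0
    · exact h hb0

/-- No Pell-type identity for a point whose `x`-coordinate has a pole at `p`. -/
theorem no_pell {p : ℕ} [hp : Fact p.Prime] (hp2 : p ≠ 2) {k₀ : ℕ} (hk₀ : 1 ≤ k₀) (κ₀ : Sp p)
    {x0 : ℚ} (hx0 : x0 ≠ 0) (z₁ : Sp p) (hz : x0⁻¹ = (p : ℚ) * z₁) {A B : ℚ[X]} {c : ℚ} {n : ℕ}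
    (hn : n ≠ 0) (hc : c ≠ 0)
    (hid : A ^ 2 - (X ^ (2 * k₀ + 1) + C ((p : ℚ) ^ (2 * k₀ + 1) * κ₀)) * B ^ 2 =
      C c * (X - C x0) ^ n)
    (hf0 : (X ^ (2 * k₀ + 1) + C ((p : ℚ) ^ (2 * k₀ + 1) * κ₀) : ℚ[X]).eval x0 ≠ 0)
    (hAB : A.eval x0 ≠ 0 ∨ B.eval x0 ≠ 0) : False := by
  set f : ℚ[X] := X ^ (2 * k₀ + 1) + C ((p : ℚ) ^ (2 * k₀ + 1) * κ₀) with hf
  have hfd : f.natDegree = 2 * k₀ + 1 := natDegree_X_pow_add_C
  have hp0 : (p : ℚ) ≠ 0 := by exact_mod_cast hp.out.ne_zero
  have hA : A ≠ 0 := by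
    rintro rfl
    have h := congrArg (eval x0) hid
    have h' : eval x0 f * eval x0 B ^ 2 = 0 := by
      rw [eval_sub, eval_mul, eval_pow, eval_pow, eval_mul, eval_pow, eval_sub, eval_X, eval_C,
        eval_C, sub_self, zero_pow hn, eval_zero] at h
      linarith
    rcases mul_eq_zero.1 h' with h | h
    · exact hf0 h
    · rcases hAB with h' | h'
      · exact h' eval_zero
      · exact h' (pow_eq_zero_iff (two_ne_zero) |>.1 h)
  obtain ⟨r, hr, hrA, hrB, hprim⟩ := exists_scale (p := p) A B hA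
  obtain ⟨a', ha'⟩ := exists_lift hrA
  obtain ⟨b', hb'⟩ := exists_lift hrB
  set a := C r * A with ha
  set b := C r * B with hb
  have hid1 : a ^ 2 - f * b ^ 2 = C (r ^ 2 * c) * (X - C x0) ^ n := by
    rw [ha, hb, C_mul, C_pow]
    linear_combination (C r : ℚ[X]) ^ 2 * hid
  have hc1 : r ^ 2 * c ≠ 0 := mul_ne_zero (pow_ne_zero _ hr) hc
  have hab : a.eval x0 ≠ 0 ∨ b.eval x0 ≠ 0 := by
    rw [ha, hb, eval_mul, eval_mul, eval_C]
    rcases hAB with h | h
    · exact Or.inl (mul_ne_zero hr h)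
    · exact Or.inr (mul_ne_zero hr h)
  obtain ⟨G, hG, hGd, hGx⟩ := exists_G hfd hc1 hn hid1 hf0 hab
  -- the identity over `Sp p`
  have hz0 : x0⁻¹ ≠ 0 := inv_ne_zero hx0
  have hlin : (1 - C x0⁻¹ * X : ℚ[X]) = C (-x0⁻¹) * (X - C x0) := by
    rw [mul_sub, ← C_mul, C_neg, neg_mul, neg_mul, inv_mul_cancel₀ hx0, C_neg, C_1]
    ring
  have hmapz : (1 - C ((p : Sp p) * z₁) * X : (Sp p)[X]).map (Sp p).subtype = 1 - C x0⁻¹ * X := by
    rw [Polynomial.map_sub, Polynomial.map_mul, Polynomial.map_one, map_X, map_C, map_mul,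
      map_natCast, hz]
    rfl
  have hmapf : (X ^ (2 * k₀ + 1) + C ((p : Sp p) ^ (2 * k₀ + 1) * κ₀) : (Sp p)[X]).map
      (Sp p).subtype = f := by
    rw [Polynomial.map_add, Polynomial.map_pow, map_X, map_C, map_mul, map_pow, map_natCast]
    rfl
  have hcoef := congrArg (eval 0) hid1
  have hc'mem : r ^ 2 * c * (-x0) ^ n ∈ Sp p := by
    have e : r ^ 2 * c * (-x0) ^ n =
        a.coeff 0 ^ 2 - ((p : ℚ) ^ (2 * k₀ + 1) * κ₀) * b.coeff 0 ^ 2 := by
      rw [hf] at hcoef
      simp only [eval_sub, eval_pow, eval_mul, eval_add, eval_X, eval_C, zero_sub,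
        zero_pow (Nat.succ_ne_zero (2 * k₀)), zero_add] at hcoef
      rw [← hcoef, coeff_zero_eq_eval_zero, coeff_zero_eq_eval_zero]
    rw [e]
    apply (Sp p).sub_mem ((Sp p).pow_mem (hrA 0) 2)
    apply (Sp p).mul_mem _ ((Sp p).pow_mem (hrB 0) 2)
    exact (Sp p).mul_mem ((Sp p).pow_mem (natCast_mem _ _) _) κ₀.2
  have hidZ : a' ^ 2 - (X ^ (2 * k₀ + 1) + C ((p : Sp p) ^ (2 * k₀ + 1) * κ₀)) * b' ^ 2 =
      C (⟨_, hc'mem⟩ : Sp p) * (1 - C ((p : Sp p) * z₁) * X) ^ n := by
    apply map_subtype_injective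
    rw [Polynomial.map_sub, Polynomial.map_mul, Polynomial.map_mul, Polynomial.map_pow,
      Polynomial.map_pow, Polynomial.map_pow, hmapz, hmapf, ha', hb', map_C, hid1, hlin, mul_pow,
      ← C_pow, ← mul_assoc, ← C_mul]
    congr 2
    show r ^ 2 * c = r ^ 2 * c * (-x0) ^ n * (-x0⁻¹) ^ n
    rw [mul_assoc (r ^ 2 * c), ← mul_pow, neg_mul_neg, mul_inv_cancel₀ hx0, one_pow, mul_one]
  have hprim' : (∃ i, a'.coeff i = 1) ∨ ∃ i, b'.coeff i = 1 := by
    rcases hprim with ⟨i, hi⟩ | ⟨i, hi⟩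
    · left
      refine ⟨i, Subtype.ext ?_⟩
      rw [← ha', coeff_map] at hi
      exact hi
    · right
      refine ⟨i, Subtype.ext ?_⟩
      rw [← hb', coeff_map] at hi
      exact hi
  obtain ⟨hcu, u, A₁, B₁, hu, hA₁, hB₁⟩ := integral_shape κ₀ hidZ hprim'
  -- the quotient
  have hne : (-x0⁻¹) ^ (n - 1) ≠ 0 := pow_ne_zero _ (neg_ne_zero.2 hz0)
  obtain ⟨N, hN, hNG⟩ := exists_denom (p := p) (C ((-x0⁻¹) ^ (n - 1))⁻¹ * G)
  obtain ⟨γ, hγ⟩ := exists_lift hNG
  have hN' : (N : ℚ) ≠ 0 := fun h => hN (Subtype.ext h)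
  have hγd : γ.natDegree ≤ k₀ := by
    have h1 : (γ.map (Sp p).subtype).natDegree = γ.natDegree :=
      natDegree_map_eq_of_injective (fun _ _ h => Subtype.ext h) _
    rw [← h1, hγ, natDegree_C_mul hN', natDegree_C_mul (inv_ne_zero hne)]
    exact hGd
  have hE : C N * (a' * DD (X ^ (2 * k₀ + 1) + C ((p : Sp p) ^ (2 * k₀ + 1) * κ₀)) b' -
      2 * (X ^ (2 * k₀ + 1) + C ((p : Sp p) ^ (2 * k₀ + 1) * κ₀)) * derivative a' * b') =
      γ * (1 - C ((p : Sp p) * z₁) * X) ^ (n - 1) := by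
    apply map_subtype_injective
    have hDD : (DD (X ^ (2 * k₀ + 1) + C ((p : Sp p) ^ (2 * k₀ + 1) * κ₀)) b').map
        (Sp p).subtype = DD f b := by
      unfold DD
      rw [Polynomial.map_add, Polynomial.map_mul, Polynomial.map_mul, Polynomial.map_mul,
        ← derivative_map, ← derivative_map, hmapf, hb', Polynomial.map_ofNat]
    rw [Polynomial.map_mul, Polynomial.map_sub, Polynomial.map_mul, Polynomial.map_mul,
      Polynomial.map_mul, Polynomial.map_mul, Polynomial.map_mul, Polynomial.map_pow, hmapz, hmapf,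
      hDD, ← derivative_map, ha', hb', Polynomial.map_ofNat, map_C, hG, hγ, hlin, mul_pow, ← C_pow]
    have e : (C ((-x0⁻¹) ^ (n - 1))⁻¹ : ℚ[X]) * C ((-x0⁻¹) ^ (n - 1)) = 1 := by
      rw [← C_mul, inv_mul_cancel₀ hne, C_1]
    show C (N : ℚ) * _ = _
    linear_combination (-(C (N : ℚ)) * G * (X - C x0) ^ (n - 1)) * e
  have hcore := core hp2 hk₀ κ₀ hn hidZ hcu hu hA₁ hB₁ hγd hE
  -- contradiction
  have h1 := congrArg (Sp p).subtype hcore
  rw [map_zero, map_sum] at h1
  have h2 : ∑ l ∈ range (k₀ + 1), (γ.map (Sp p).subtype).coeff l * x0 ^ l = 0 := by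
    have : ∑ l ∈ range (k₀ + 1), (γ.map (Sp p).subtype).coeff l * x0 ^ l =
        x0 ^ k₀ * ∑ l ∈ range (k₀ + 1), (Sp p).subtype (γ.coeff l * ((p : Sp p) * z₁) ^ (k₀ - l)) := by
      rw [mul_sum]
      refine sum_congr rfl fun l hl => ?_
      rw [mem_range] at hl
      rw [coeff_map, map_mul, map_pow, map_mul, map_natCast]
      have e : (Sp p).subtype z₁ = (z₁ : ℚ) := rfl
      rw [e, ← hz, inv_pow]
      have hk : x0 ^ k₀ = x0 ^ l * x0 ^ (k₀ - l) := by
        rw [← pow_add]; congr 1; omega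
      rw [hk]
      have : x0 ^ (k₀ - l) ≠ 0 := pow_ne_zero _ hx0
      field_simp
    rw [this, h1, mul_zero]
  have h3 : (γ.map (Sp p).subtype).eval x0 = 0 := by
    rw [eval_eq_sum_range' (n := k₀ + 1), h2]
    rw [natDegree_map_eq_of_injective (fun _ _ h => Subtype.ext h)]
    omega
  rw [hγ, eval_mul, eval_mul, eval_C, eval_C] at h3
  exact mul_ne_zero hN' (mul_ne_zero (inv_ne_zero hne) hGx) h3

end MP241ea1
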