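import Pool.Agent.Helper10.TW.Pell
import Pool.Agent.Helper10.TW.Defs

/-! A rational point near infinity gives an element of infinite order. -/

namespace MP241ea1

open Polynomial

section ring

variable (f : ℚ[X])

/-- functions of `x` -/
noncomputable abbrev xOf : ℚ[X] →+* CoordRing f := AdjoinRoot.of (X ^ 2 - C f : ℚ[X][X])

/-- the function `y` -/
noncomputable abbrev yEl : CoordRing f := AdjoinRoot.root (X ^ 2 - C f : ℚ[X][X])

lemma yEl_sq : yEl f ^ 2 = xOf f f := by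
  have h := AdjoinRoot.eval₂_root (X ^ 2 - C f : ℚ[X][X])
  rw [eval₂_sub, eval₂_pow, eval₂_X, eval₂_C, sub_eq_zero] at h
  exact h

variable {f}

lemma exists_rep (g : CoordRing f) : ∃ A B : ℚ[X], g = xOf f A + xOf f B * yEl f := by
  obtain ⟨q, rfl⟩ := AdjoinRoot.mk_surjective g
  induction q using Polynomial.induction_on' with
  | add p q hp hq =>
    obtain ⟨A, B, h⟩ := hp
    obtain ⟨A', B', h'⟩ := hq
    refine ⟨A + A', B + B', ?_⟩
    rw [map_add, h, h', map_add, map_add]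
    ring
  | monomial n a =>
    have h0 : (AdjoinRoot.mk (X ^ 2 - C f : ℚ[X][X])) (monomial n a) = xOf f a * yEl f ^ n := by
      rw [← C_mul_X_pow_eq_monomial, map_mul, map_pow, AdjoinRoot.mk_X, AdjoinRoot.mk_C]
    rw [h0]
    obtain ⟨k, rfl | rfl⟩ := Nat.even_or_odd' n
    · refine ⟨a * f ^ k, 0, ?_⟩
      rw [pow_mul, yEl_sq, map_mul, map_pow, map_zero]
      ring
    · refine ⟨0, a * f ^ k, ?_⟩
      rw [pow_succ (yEl f), pow_mul, yEl_sq, map_mul, map_pow, map_zero]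
      ring

lemma rep_eq_zero {A B : ℚ[X]} (h : xOf f A + xOf f B * yEl f = 0) : A = 0 ∧ B = 0 := by
  have h1 : AdjoinRoot.mk (X ^ 2 - C f : ℚ[X][X]) (C A + C B * X) = 0 := by
    rw [map_add, map_mul, AdjoinRoot.mk_X, AdjoinRoot.mk_C, AdjoinRoot.mk_C]
    exact h
  rw [AdjoinRoot.mk_eq_zero] at h1
  have hdeg : (X ^ 2 - C f : ℚ[X][X]).natDegree = 2 := natDegree_X_pow_sub_C
  have h2 : C A + C B * X = 0 := by
    by_contra hne
    have h3 := natDegree_le_of_dvd h1 hne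
    rw [hdeg] at h3
    have h4 : (C A + C B * X : ℚ[X][X]).natDegree ≤ 1 := by
      rw [add_comm]; exact natDegree_linear_le
    omega
  constructor
  · have := congrArg (fun q => q.coeff 0) h2
    simpa using this
  · have := congrArg (fun q => q.coeff 1) h2
    simpa using this

/-- evaluation at a point -/
noncomputable def evPt {x0 y0 : ℚ} (h : y0 ^ 2 = f.eval x0) : CoordRing f →+* ℚ :=
  AdjoinRoot.lift (evalRingHom x0) y0 (by
    rw [eval₂_sub, eval₂_pow, eval₂_X, eval₂_C, h]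
    simp)

lemma evPt_rep {x0 y0 : ℚ} (h : y0 ^ 2 = f.eval x0) (A B : ℚ[X]) :
    evPt h (xOf f A + xOf f B * yEl f) = A.eval x0 + B.eval x0 * y0 := by
  unfold evPt
  rw [map_add, map_mul, AdjoinRoot.lift_of, AdjoinRoot.lift_of, AdjoinRoot.lift_root]
  rfl

/-- from a principal power of the ideal of a point to a Pell-type identity -/
lemma pell_of_principal {x0 y0 : ℚ} (h : y0 ^ 2 = f.eval x0) (hy : y0 ≠ 0) {n : ℕ} (hn : n ≠ 0)
    {g : CoordRing f}
    (hg : (Ideal.span {xOf f (X - C x0), yEl f - xOf f (C y0)}) ^ n = Ideal.span {g}) :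
    ∃ (A B : ℚ[X]) (c : ℚ) (j : ℕ), j ≠ 0 ∧ c ≠ 0 ∧ A ^ 2 - f * B ^ 2 = C c * (X - C x0) ^ j ∧
      (A.eval x0 ≠ 0 ∨ B.eval x0 ≠ 0) := by
  obtain ⟨A, B, hAB⟩ := exists_rep g
  -- `U ^ n ∈ (g)`
  have hU : (xOf f (X - C x0)) ^ n ∈ Ideal.span {g} := by
    rw [← hg]
    exact Ideal.pow_mem_pow (Ideal.subset_span (by simp)) n
  have hV : (yEl f - xOf f (C y0)) ^ n ∈ Ideal.span {g} := by
    rw [← hg]
    exact Ideal.pow_mem_pow (Ideal.subset_span (by simp)) n
  obtain ⟨w, hw⟩ := Ideal.mem_span_singleton'.1 hU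
  obtain ⟨v, hv⟩ := Ideal.mem_span_singleton'.1 hV
  obtain ⟨A₂, B₂, hw2⟩ := exists_rep w
  have e : xOf f (A₂ * A + f * (B₂ * B) - (X - C x0) ^ n) + xOf f (A₂ * B + B₂ * A) * yEl f = 0 := by
    rw [hw2, hAB, ← map_pow] at hw
    rw [map_sub, ← hw, map_add, map_add, map_mul, map_mul, map_mul, map_mul, map_mul]
    linear_combination (-(xOf f B₂) * xOf f B) * yEl_sq f
  obtain ⟨e1, e2⟩ := rep_eq_zero e
  have hnorm : (A ^ 2 - f * B ^ 2) * (A₂ ^ 2 - f * B₂ ^ 2) = (X - C x0) ^ (2 * n) := by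
    have e1' : A₂ * A + f * (B₂ * B) = (X - C x0) ^ n := sub_eq_zero.1 e1
    have : (X - C x0 : ℚ[X]) ^ (2 * n) = ((X - C x0) ^ n) ^ 2 := by rw [← pow_mul, mul_comm]
    rw [this, ← e1']
    linear_combination -f * (A₂ * B + B₂ * A) * e2
  have hdvd : A ^ 2 - f * B ^ 2 ∣ (X - C x0) ^ (2 * n) := ⟨_, hnorm.symm⟩
  obtain ⟨j, -, hj⟩ := (dvd_prime_pow (prime_X_sub_C x0) _).1 hdvd
  obtain ⟨u, hu⟩ := hj.symm
  obtain ⟨c, hc, hcu⟩ := Polynomial.isUnit_iff.1 u.isUnit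
  refine ⟨A, B, c, j, ?_, hc.ne_zero, ?_, ?_⟩
  · -- `g` vanishes at the point
    rintro rfl
    have hgJ : g ∈ Ideal.span {xOf f (X - C x0), yEl f - xOf f (C y0)} := by
      have : g ∈ (Ideal.span {xOf f (X - C x0), yEl f - xOf f (C y0)}) ^ n := by
        rw [hg]; exact Ideal.mem_span_singleton_self _
      exact Ideal.pow_le_self hn this
    have hker : Ideal.span {xOf f (X - C x0), yEl f - xOf f (C y0)} ≤ RingHom.ker (evPt h) := by
      rw [Ideal.span_le]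
      rintro z (rfl | rfl)
      · rw [SetLike.mem_coe, RingHom.mem_ker]
        have := evPt_rep h (X - C x0) 0
        rw [map_zero, zero_mul, add_zero] at this
        rw [this]; simp
      · rw [SetLike.mem_coe, RingHom.mem_ker]
        have := evPt_rep h (-(C y0)) 1
        rw [map_neg, map_one, one_mul, neg_add_eq_sub] at this
        rw [this]; simp
    have hg0 := RingHom.mem_ker.1 (hker hgJ)
    rw [hAB, evPt_rep] at hg0
    have h3 : (A ^ 2 - f * B ^ 2).eval x0 = 0 := by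
      rw [eval_sub, eval_mul, eval_pow, eval_pow, ← h]
      linear_combination (A.eval x0 - B.eval x0 * y0) * hg0
    rw [← hu, pow_zero, one_mul, ← hcu, eval_C] at h3
    exact hc.ne_zero h3
  · rw [← hu, ← hcu, mul_comm]
  · -- `g` does not vanish at the conjugate point
    have h' : (-y0) ^ 2 = f.eval x0 := by rw [neg_sq, h]
    have hv' := congrArg (evPt h') hv
    rw [map_mul, map_pow] at hv'
    have e3 := evPt_rep h' (-(C y0)) 1
    rw [map_neg, map_one, one_mul, neg_add_eq_sub] at e3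
    rw [e3, hAB, evPt_rep] at hv'
    by_contra hcon
    push Not at hcon
    rw [hcon.1, hcon.2, zero_mul, add_zero, mul_zero] at hv'
    have : (-(C y0) : ℚ[X]).eval x0 + (1 : ℚ[X]).eval x0 * -y0 = -(2 * y0) := by
      rw [eval_neg, eval_C, eval_one]; ring
    rw [this] at hv'
    exact pow_ne_zero n (neg_ne_zero.2 (mul_ne_zero two_ne_zero hy)) hv'.symm

end ring

/-- A rational point near infinity gives an element of infinite order. -/
theorem posRank_of_point {p : ℕ} [hp : Fact p.Prime] (hp2 : p ≠ 2) {k₀ : ℕ} (hk₀ : 1 ≤ k₀)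
    (κ₀ : Sp p) {f : ℚ[X]} {c1 c2 : ℚ} (hc1 : c1 ≠ 0) (hc2 : c2 ≠ 0)
    (hf : (X ^ (2 * k₀ + 1) + C ((p : ℚ) ^ (2 * k₀ + 1) * κ₀) : ℚ[X]) =
      C (c2 ^ 2) * f.comp (C c1⁻¹ * X))
    {x0 y0 : ℚ} (h : y0 ^ 2 = f.eval x0) (hy : y0 ≠ 0) (hx : x0 ≠ 0) (z₁ : Sp p)
    (hz : (c1 * x0)⁻¹ = (p : ℚ) * z₁) : PosRank f := by
  have hodd : Odd f.natDegree := by
    have h1 := congrArg natDegree hf
    rw [natDegree_X_pow_add_C, natDegree_C_mul (pow_ne_zero _ hc2), natDegree_comp,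
      natDegree_C_mul_X _ (inv_ne_zero hc1), mul_one] at h1
    exact ⟨k₀, h1.symm⟩
  have hdom := isDomain_coordRing hodd
  refine ⟨hdom, ?_⟩
  have hinj : ∀ q : ℚ[X], q ≠ 0 → xOf f q ≠ 0 := by
    intro q hq h0
    exact hq (rep_eq_zero (A := q) (B := 0) (by rw [h0, map_zero, zero_mul, add_zero])).1
  obtain ⟨W, hW⟩ : ∃ W : ℚ[X], f - C (y0 ^ 2) = (X - C x0) * W := by
    have : (X - C x0) ∣ f - C (y0 ^ 2) := by
      rw [dvd_iff_isRoot, IsRoot, eval_sub, eval_C, h, sub_self]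
    exact this
  apply classGroup_of_ideals (Ideal.span {xOf f (X - C x0), yEl f - xOf f (C y0)})
    (Ideal.span {xOf f (X - C x0), yEl f + xOf f (C y0)}) (xOf f (X - C x0))
    (hinj _ (X_sub_C_ne_zero x0))
  · apply span_pair_mul_eq (W := xOf f W)
    · rw [← map_mul, ← hW, map_sub, C_pow, map_pow]
      linear_combination yEl_sq f
    · have : yEl f + xOf f (C y0) - (yEl f - xOf f (C y0)) = xOf f (C (2 * y0)) := by
        rw [C_mul, map_mul, C_ofNat, map_ofNat]; ring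
      rw [this]
      exact ((IsUnit.mk0 (2 * y0) (by simpa using hy)).map C).map (xOf f)
  · intro n hn g _ hg _
    obtain ⟨A, B, c, j, hj, hc, hid, hab⟩ := pell_of_principal h hy hn hg
    have hcX : (C c1⁻¹ * X : ℚ[X]) - C x0 = C c1⁻¹ * (X - C (c1 * x0)) := by
      rw [mul_sub, ← C_mul, ← mul_assoc, inv_mul_cancel₀ hc1, one_mul]
    have hev : ∀ q : ℚ[X], (q.comp (C c1⁻¹ * X)).eval (c1 * x0) = q.eval x0 := by
      intro q
      rw [eval_comp, eval_mul, eval_C, eval_X, ← mul_assoc, inv_mul_cancel₀ hc1, one_mul]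
    refine no_pell hp2 hk₀ κ₀ (x0 := c1 * x0) (mul_ne_zero hc1 hx) z₁ hz
      (A := A.comp (C c1⁻¹ * X)) (B := C c2⁻¹ * B.comp (C c1⁻¹ * X)) (c := c * c1⁻¹ ^ j) hj
      (mul_ne_zero hc (pow_ne_zero _ (inv_ne_zero hc1))) ?_ ?_ ?_
    · have h1 := congrArg (fun q => q.comp (C c1⁻¹ * X)) hid
      simp only [sub_comp, mul_comp, pow_comp, C_comp, X_comp] at h1
      rw [hcX, mul_pow, ← mul_assoc] at h1
      have e1 : (C (c * c1⁻¹ ^ j) : ℚ[X]) = C c * C c1⁻¹ ^ j := by rw [C_mul, C_pow]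
      rw [hf, e1, ← h1, C_pow]
      have : (C c2 * C c2⁻¹ : ℚ[X]) = 1 := by rw [← C_mul, mul_inv_cancel₀ hc2, C_1]
      linear_combination (-(f.comp (C c1⁻¹ * X)) * (B.comp (C c1⁻¹ * X)) ^ 2 *
        (C c2 * C c2⁻¹ + 1)) * this
    · rw [hf, eval_mul, eval_C, hev, ← h]
      exact mul_ne_zero (pow_ne_zero _ hc2) (pow_ne_zero _ hy)
    · rw [hev, eval_mul, hev, eval_C]
      rcases hab with h | h
      · exact Or.inl h
      · exact Or.inr (mul_ne_zero (inv_ne_zero hc2) h)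

end MP241ea1
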