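import Pool.Agent.Helper10.TW.Params
import Pool.Agent.Helper10.TW.Functional

/-! The weights of the functional are `p`-integral. -/

namespace MP241ea1

open Finset

lemma mem_Sp_of_val {p : ℕ} [Fact p.Prime] {x : ℚ} (h : 0 ≤ padicValRat p x) : x ∈ Sp p := by
  obtain ⟨e, he⟩ := exists_mul_of_le (p := p) (n := 0) (x := x) (by simpa using h)
  rw [he, pow_zero, one_mul]
  exact e.2

lemma val_prod_le {p : ℕ} [hp : Fact p.Prime] (hp2 : p ≠ 2) (m i : ℕ) :
    padicValNat p (∏ l ∈ range i, (2 * m * (l + 1) + 1)) ≤ m * i := by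
  rcases Nat.eq_zero_or_pos m with rfl | hm
  · simp
  have hdvd : (∏ l ∈ range i, (2 * m * (l + 1) + 1)) ∣ (2 * m * i + 1).factorial := by
    rw [← Finset.prod_range_add_one_eq_factorial]
    have hinj : Set.InjOn (fun l => 2 * m * (l + 1)) (range i : Set ℕ) := by
      intro a _ b _ hab
      simp only at hab
      have := Nat.eq_of_mul_eq_mul_left (by omega : 0 < 2 * m) hab
      omega
    have : ∏ l ∈ range i, (2 * m * (l + 1) + 1) =
        ∏ x ∈ (range i).image (fun l => 2 * m * (l + 1)), (x + 1) := by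
      rw [prod_image hinj]
    rw [this]
    apply Finset.prod_dvd_prod_of_subset
    intro x hx
    rw [mem_image] at hx
    obtain ⟨l, hl, rfl⟩ := hx
    rw [mem_range] at hl ⊢
    have : 2 * m * (l + 1) ≤ 2 * m * i := Nat.mul_le_mul_left _ hl
    omega
  have h1 : padicValNat p (∏ l ∈ range i, (2 * m * (l + 1) + 1)) ≤
      padicValNat p (2 * m * i + 1).factorial := by
    rw [← padicValNat_dvd_iff_le (Nat.factorial_ne_zero _)]
    exact pow_padicValNat_dvd.trans hdvd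
  have h2 := sub_one_mul_padicValNat_factorial_lt_of_ne_zero (p := p) (n := 2 * m * i + 1)
    (by omega)
  have h3 : 2 ≤ p - 1 := by
    have := hp.out.two_le
    have : p ≠ 2 := hp2
    omega
  have h4 : 2 * padicValNat p (2 * m * i + 1).factorial ≤
      (p - 1) * padicValNat p (2 * m * i + 1).factorial := Nat.mul_le_mul_right _ h3
  have : 2 * padicValNat p (2 * m * i + 1).factorial < 2 * (m * i) + 1 := by
    calc _ ≤ _ := h4
      _ < 2 * m * i + 1 := h2
      _ = _ := by ring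
  omega

/-- There are `p`-integral weights with the required recursion when `p^m ∣ κ`. -/
theorem exists_weights {p : ℕ} [hp : Fact p.Prime] (hp2 : p ≠ 2) (m : ℕ) (κ₀ : Sp p) :
    ∃ w : ℕ → Sp p, w 0 = 1 ∧ ∀ i : ℕ, (2 * (m : Sp p) * (i + 1) + 1) * w (i + 1) =
      -((p : Sp p) ^ m * κ₀) * (2 * m * i + m + 1) * w i := by
  have hp0 : (p : ℚ) ≠ 0 := by exact_mod_cast hp.out.ne_zero
  have hmem : ∀ i : ℕ, (p : ℚ) ^ (m * i) / ((∏ l ∈ range i, (2 * m * (l + 1) + 1) : ℕ) : ℚ) ∈ Sp p := by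
    intro i
    apply mem_Sp_of_val
    have hne : ((∏ l ∈ range i, (2 * m * (l + 1) + 1) : ℕ) : ℚ) ≠ 0 := by
      rw [Nat.cast_ne_zero, prod_ne_zero_iff]
      intros; omega
    rw [padicValRat.div (pow_ne_zero _ hp0) hne, padicValRat.pow, padicValRat.self hp.out.one_lt,
      padicValRat.of_nat]
    have := val_prod_le hp2 m i
    push_cast
    have h2 : (padicValNat p (∏ l ∈ range i, (2 * m * (l + 1) + 1)) : ℤ) ≤ m * i := by
      exact_mod_cast this
    push_cast at h2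
    linarith
  let t : ℕ → Sp p := fun i => ⟨_, hmem i⟩
  refine ⟨fun i => (-κ₀) ^ i * ((∏ l ∈ range i, (2 * m * l + m + 1) : ℕ) : Sp p) * t i, ?_, ?_⟩
  · have : t 0 = 1 := by
      apply Subtype.ext
      show (p : ℚ) ^ (m * 0) / ((∏ l ∈ range 0, (2 * m * (l + 1) + 1) : ℕ) : ℚ) = 1
      simp
    show (-κ₀) ^ 0 * ((∏ l ∈ range 0, (2 * m * l + m + 1) : ℕ) : Sp p) * t 0 = 1
    rw [this]
    simp
  · intro i
    have ht : (2 * (m : Sp p) * (i + 1) + 1) * t (i + 1) = (p : Sp p) ^ m * t i := by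
      apply Subtype.ext
      have e1 : ((2 * (m : Sp p) * (i + 1) + 1 : Sp p) : ℚ) = 2 * m * (i + 1) + 1 := by
        push_cast
        rw [coe_ofNat]
      rw [Subring.coe_mul, Subring.coe_mul, e1, Subring.coe_pow, Subring.coe_natCast]
      show (2 * (m : ℚ) * (i + 1) + 1) * ((p : ℚ) ^ (m * (i + 1)) /
        ((∏ l ∈ range (i + 1), (2 * m * (l + 1) + 1) : ℕ) : ℚ)) =
        (p : ℚ) ^ m * ((p : ℚ) ^ (m * i) / ((∏ l ∈ range i, (2 * m * (l + 1) + 1) : ℕ) : ℚ))
      have hne : ((∏ l ∈ range i, (2 * m * (l + 1) + 1) : ℕ) : ℚ) ≠ 0 := by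
        rw [Nat.cast_ne_zero, prod_ne_zero_iff]
        intros; omega
      have hne2 : (2 * (m : ℚ) * (i + 1) + 1) ≠ 0 := by positivity
      rw [prod_range_succ, Nat.cast_mul]
      have e2 : ((2 * m * (i + 1) + 1 : ℕ) : ℚ) = 2 * (m : ℚ) * (i + 1) + 1 := by push_cast; ring
      rw [e2, mul_add m i 1, mul_one, pow_add]
      field_simp
    show (2 * (m : Sp p) * (i + 1) + 1) * ((-κ₀) ^ (i + 1) *
      ((∏ l ∈ range (i + 1), (2 * m * l + m + 1) : ℕ) : Sp p) * t (i + 1)) =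
      -((p : Sp p) ^ m * κ₀) * (2 * m * i + m + 1) *
      ((-κ₀) ^ i * ((∏ l ∈ range i, (2 * m * l + m + 1) : ℕ) : Sp p) * t i)
    rw [prod_range_succ, pow_succ]
    push_cast
    linear_combination (-κ₀) ^ i * (-κ₀) *
      (∏ l ∈ range i, (2 * (m : Sp p) * l + m + 1)) * (2 * m * i + m + 1) * ht

end MP241ea1
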